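import Pool.Agent.H620R2.GaugeR.Seq

/-! Algorithms given by a state which is updated after each answer. -/

set_option autoImplicit false

namespace Pool.Agent.W2helper58.GU

open Pool.Agent.NPC Pool.Agent.H622R2 Pool.Agent.H620R2.Gauge

section

variable {α : Type} [TEnc α] (A : Oracle) (init : List Bool → α)
  (qu : List Bool × α → List Bool) (st : List Bool × α × Bool → α)

/-- the state after `n` answers of the oracle -/
def iter (x : List Bool) : ℕ → α
  | 0 => init x
  | n + 1 => st (x, iter x n, A (qu (x, iter x n)))

/-- the first `n` answers -/
def answ (x : List Bool) : ℕ → List Bool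
  | 0 => []
  | n + 1 => answ x n ++ [A (qu (x, iter A init qu st x n))]

omit [TEnc α] in
theorem length_answ (x : List Bool) (n : ℕ) : (answ A init qu st x n).length = n := by
  induction n with
  | zero => rfl
  | succ n ih => rw [answ, List.length_append, ih]; rfl

omit [TEnc α] in
theorem foldl_answ (x : List Bool) (n : ℕ) :
    (answ A init qu st x n).foldl (fun s b => st (x, s, b)) (init x) = iter A init qu st x n := by
  induction n with
  | zero => rfl
  | succ n ih => rw [answ, List.foldl_append, ih]; rfl

/-- the next action -/
def machD (N : List Bool → ℕ) (out : List Bool × α → List Bool) (y : List Bool) : List Bool :=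
  if (unpair y).2.length < N (unpair y).1 then
    false :: qu ((unpair y).1, (unpair y).2.foldl (fun s b => st ((unpair y).1, s, b))
      (init (unpair y).1))
  else
    true :: out ((unpair y).1, (unpair y).2.foldl (fun s b => st ((unpair y).1, s, b))
      (init (unpair y).1))

variable {init qu st}

theorem mach {N : List Bool → ℕ} {out : List Bool × α → List Bool} (hinit : Poly init)
    (hN : UPoly N) (hqu : Poly qu) (hst : Poly st) (hout : Poly out) (P : Polynomial ℕ)
    (hP : ∀ x a : List Bool, sz (a.foldl (fun s b => st (x, s, b)) (init x)) ≤ P.eval (sz (x, a))) :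
    IsFP A (fun x => out (x, iter A init qu st x (N x))) := by
  have hfold : Poly (fun p : List Bool × List Bool =>
      p.2.foldl (fun s b => st (p.1, s, b)) (init p.1)) := by
    refine Poly.foldl (l := fun p : List Bool × List Bool => p.2) (s := fun p => init p.1)
      (F := fun p s b => st (p.1, s, b)) (Poly.snd Poly.id) (hinit.comp (Poly.fst Poly.id)) ?_ P ?_
    · exact hst.comp (Poly.pair (Poly.fst (Poly.fst Poly.id)) (Poly.pair
        (Poly.fst (Poly.snd Poly.id)) (Poly.snd (Poly.snd Poly.id))))
    · intro p k _
      refine (hP p.1 (p.2.take k)).trans (eval_mono _ ?_)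
      have h1 := Poly.sz_take_le p.2 k
      obtain ⟨x, a⟩ := p
      simp only [sz_pair]
      dsimp only at h1
      omega
  have hx : Poly (fun y : List Bool => (unpair y).1) := Poly.fst poly_unpair
  have hs : Poly (fun y : List Bool => ((unpair y).1,
      (unpair y).2.foldl (fun s b => st ((unpair y).1, s, b)) (init (unpair y).1))) :=
    Poly.pair hx (hfold.comp poly_unpair)
  have hD : Poly (machD init qu st N out) := by
    unfold machD
    exact Poly.ite (Poly.decide_lt (Poly.length (Poly.snd poly_unpair)) ((UPoly.toPoly hN).comp hx))
      (Poly.cons (NPC.Poly.const false) (hqu.comp hs))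
      (Poly.cons (NPC.Poly.const true) (hout.comp hs))
  obtain ⟨r, hr⟩ := hN.sz_le
  refine ⟨⟨machD init qu st N out, polyTime_of_poly_list hD,
    r.comp (Polynomial.C 4 * Polynomial.X + Polynomial.C 1)⟩, fun x => ?_⟩
  have hNx : N x + 1 ≤ (r.comp (Polynomial.C 4 * Polynomial.X + Polynomial.C 1)).eval x.length := by
    apply A2.sz_eval_le
    refine le_trans ?_ (hr x)
    have := length_lt_sz (List.replicate (N x) ())
    rw [List.length_replicate] at this
    exact this
  have key : ∀ (n k : ℕ), k ≤ N x → N x < k + n →
      Alg.run ⟨machD init qu st N out, polyTime_of_poly_list hD,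
        r.comp (Polynomial.C 4 * Polynomial.X + Polynomial.C 1)⟩ A x n
        (answ A init qu st x k) = some (out (x, iter A init qu st x (N x))) := by
    intro n
    induction n with
    | zero => intro k h1 h2; omega
    | succ n ih =>
      intro k h1 h2
      rw [Alg.run]
      have hDk : machD init qu st N out (pairBits x (answ A init qu st x k)) =
          if k < N x then false :: qu (x, iter A init qu st x k) else
            true :: out (x, iter A init qu st x k) := by
        unfold machD
        simp only [unpair_pairBits, length_answ, foldl_answ]
      change (match machD init qu st N out (pairBits x (answ A init qu st x k)) with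
        | [] => _ | true :: z => _ | false :: q => _) = _
      rw [hDk]
      by_cases h : k < N x
      · rw [if_pos h]
        exact ih (k + 1) h (by omega)
      · rw [if_neg h]
        have : k = N x := by omega
        subst this
        rfl
  refine key _ 0 (Nat.zero_le _) ?_
  change N x < 0 + (r.comp (Polynomial.C 4 * Polynomial.X + Polynomial.C 1)).eval x.length
  omega

end

end Pool.Agent.W2helper58.GU
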