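import Pool.Agent.W2helper58.GU.Gen

/-! Optimal proof systems for all languages in polynomial space. -/

set_option autoImplicit false

namespace Pool.Agent.W2helper58.GU

open Pool.Agent.NPC Pool.Agent.H622R2 Pool.Agent.H620R2.Gauge Pool.Agent.H622R2.Exp
  Pool.Agent.TH678.RS Pool.Agent.TH678.GC Filter

theorem exists_qs (ℓ : ℕ) : ∃ ps : List (List Bool), ∀ z z' : Z,
    ps.map (oz z') = ps.map (oz z) → Agr ℓ z z' := by
  obtain ⟨W, _, hW⟩ := exists_short ℓ
  refine ⟨W.toList.flatMap (fun u => [false :: u, true :: false :: u]), fun z z' h u hu => ?_⟩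
  rw [List.map_eq_map_iff] at h
  have h1 : ∀ q ∈ [false :: u, true :: false :: u],
      q ∈ W.toList.flatMap (fun u => [false :: u, true :: false :: u]) := fun q hq =>
    List.mem_flatMap.2 ⟨u, Finset.mem_toList.2 (hW u hu), hq⟩
  have h2 : oz z' (false :: u) = oz z (false :: u) := h _ (h1 (false :: u) (by simp))
  have h3 : oz z' (true :: false :: u) = oz z (true :: false :: u) :=
    h _ (h1 (true :: false :: u) (by simp))
  exact ⟨h2.symm, h3.symm⟩

/-- the answers to the questions `ps` are the same -/
def near (ps : List (List Bool)) (z z' : Z) : Prop := ps.map (oz z') = ps.map (oz z)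

/-- the description of an algorithm which is guarded by finitely many answers -/
theorem exists_forced (ps : List (List Bool)) (z : Z) (M : Alg) (c : List Bool)
    (hc : c.head? ≠ some false) : ∃ (h : List Bool) (T : Polynomial ℕ) (κ : ℕ),
    (∀ n, κ ≤ T.eval n) ∧ ∀ (t : ℕ) (z' : Z), κ ≤ t →
      (near ps z z' → ∀ y v, ev h y t (oz z') = true :: v → M.out (oz z') y = some v) ∧
      (near ps z z' → ∀ y v, T.eval y.length ≤ t → M.out (oz z') y = some v →
        ev h y t (oz z') = true :: v) ∧
      (¬ near ps z z' → ∀ y, ev h y t (oz z') = c) := by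
  obtain ⟨h, κ, hh⟩ := exists_desc ps (ps.map (oz z)) c hc M
  obtain ⟨T, hT⟩ := exists_time M
  refine ⟨h, T + Polynomial.C (κ + ps.length), κ, fun n => ?_, fun t z' ht => ⟨?_, ?_, ?_⟩⟩
  · rw [Polynomial.eval_add, Polynomial.eval_C]; omega
  · intro hn y v h2
    have hn' : ps.map (oz z') = ps.map (oz z) := hn
    rw [hh t ht y (oz z'), if_pos hn'] at h2
    exact evr_sound h2
  · intro hn y v ht2 h2
    have hn' : ps.map (oz z') = ps.map (oz z) := hn
    rw [Polynomial.eval_add, Polynomial.eval_C] at ht2
    rw [hh t ht y (oz z'), if_pos hn']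
    exact hT _ _ _ _ _ (by omega) (by omega) h2
  · intro hn y
    have hn' : ¬ ps.map (oz z') = ps.map (oz z) := hn
    rw [hh t ht y (oz z'), if_neg hn']

/-- Soundness of proof systems is forced. -/
def Gs (z : Z) : Prop := ∀ (e : ℕ) (M : Alg),
  (∀ y v, M.out (oz z) y = some v → AccL e (oz z) v) →
    ∃ ℓ, ∀ z', Agr ℓ z z' → ∀ y v, M.out (oz z') y = some v → AccL e (oz z') v

theorem out_congr (M : Alg) : ∃ qb : Polynomial ℕ, ∀ (O O' : Oracle) (x : List Bool),
    (∀ q : List Bool, q.length ≤ qb.eval x.length → O q = O' q) → M.out O x = M.out O' x := by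
  obtain ⟨qb, hqb⟩ := M.out_local
  refine ⟨qb, fun O O' x h => ?_⟩
  obtain ⟨Q, _, h2, h3⟩ := hqb O x
  exact (h3 O' fun q hq => (h q (h2 q hq)).symm).symm

theorem generic_Gs : ∀ᶠ z in residual Z, Gs z := by
  have hcn := CC.poly_countable
  have hc2 : Countable Alg := Alg.countable
  refine eventually_countable_forall.2 fun e => eventually_countable_forall.2 fun M => ?_
  obtain ⟨qb, hqb⟩ := out_congr M
  have h := generic_force (ι := List Bool × List Bool)
    (fun i z => M.out (oz z) i.1 = some i.2 → AccL e (oz z) i.2) (by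
      rintro ⟨y, v⟩ z hz
      refine ⟨max (qb.eval y.length) ((sb e).eval v.length), fun z' hz' => ?_⟩
      have h1 : M.out (oz z) y = M.out (oz z') y := hqb _ _ _ fun q hq =>
        oz_agr hz' q (hq.trans (le_max_left _ _))
      have h2 : AccL e (oz z) v ↔ AccL e (oz z') v := AccL_congr e fun q hq =>
        oz_agr hz' q (hq.trans (le_max_right _ _))
      dsimp only at hz ⊢
      rwa [h1, h2] at hz)
  filter_upwards [h] with z hz h1
  obtain ⟨ℓ, hℓ⟩ := hz fun i => h1 i.1 i.2
  exact ⟨ℓ, fun z' hz' y v => hℓ z' hz' (y, v)⟩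

/-! ### The proof system -/

/-- the proof system -/
noncomputable def Fps (e : ℕ) (d : List Bool) (O : Oracle) (x : List Bool) : List Bool :=
  if gui (List.replicate (e + 3) true) (pairBits (unpair x).1 (unpair (unpair x).2).1)
      (unpair (unpair x).2).2 = true ∧ (ue Dh O x).head? = some true
  then (ue Dh O x).tail else d

theorem isFP_Fps (e : ℕ) (d : List Bool) (A B : Oracle) :
    IsFP (orc A B) (Fps e d (orc A B)) := by
  have hx : Poly (fun y : List Bool => (unpair y).1) := Poly.fst poly_unpair
  have hx2 : Poly (fun y : List Bool => unpair (unpair y).2) :=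
    poly_unpair.comp (Poly.snd poly_unpair)
  have h1 := isFP_gui A B (NPC.Poly.const (List.replicate (e + 3) true))
    (poly_pairBits hx (Poly.fst hx2)) (Poly.snd hx2)
  have h2 := IsFP.pair h1 (isFP_ev A B)
  have h3 : Poly (fun y : List Bool => if (unpair y).1 = [true] ∧
      (unpair y).2.head? = some true then (unpair y).2.tail else d) :=
    Poly.ite (Poly.decide_and (Poly.decide_eq hx (NPC.Poly.const _))
      (Poly.decide_eq (Poly.head? (Poly.snd poly_unpair)) (NPC.Poly.const _)))
      (Poly.tail (Poly.snd poly_unpair)) (NPC.Poly.const _)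
  have h4 := IsFP.comp (IsFP.of_poly (A := orc A B) h3) h2
  have e1 : (fun x => (fun y : List Bool => if (unpair y).1 = [true] ∧
      (unpair y).2.head? = some true then (unpair y).2.tail else d)
        (pairBits [gui (List.replicate (e + 3) true) (pairBits (unpair x).1
          (unpair (unpair x).2).1) (unpair (unpair x).2).2] (ue Dh (orc A B) x))) =
      Fps e d (orc A B) := by
    funext x
    unfold Fps
    simp only [unpair_pairBits, List.cons.injEq, and_true]
  rw [← e1]
  exact h4

/-- the translation -/
def tr (h : List Bool) (T : Polynomial ℕ) (x : List Bool) : List Bool :=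
  pairBits h (pairBits x (List.replicate (T.eval x.length) true))

theorem poly_ones {f : List Bool → List Bool} (hf : Poly f) (T : Polynomial ℕ) :
    Poly (fun x => List.replicate (T.eval (f x).length) true) := by
  have h1 : UPoly (fun x : List Bool => (f x).length) := UPoly.length hf
  exact (NPC.Poly.map (F := fun _ _ => true) (h1.eval T) (NPC.Poly.const true)).congr
    fun x => by simp

theorem poly_tr (h : List Bool) (T : Polynomial ℕ) : Poly (tr h T) :=
  poly_pairBits (NPC.Poly.const _) (poly_pairBits Poly.id (poly_ones Poly.id T))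

theorem Fps_tr (e : ℕ) (d : List Bool) (O : Oracle) (h x : List Bool) (T : Polynomial ℕ)
    (v : List Bool) (hg : ∀ A B : Oracle, Uniq B →
      Ps e (pairBits h x) (T.eval x.length) (orc A B))
    (hv : ev h x (T.eval x.length) O = true :: v) : Fps e d O (tr h T x) = v := by
  unfold Fps tr
  simp only [unpair_pairBits, ue_eq, List.length_replicate, hv]
  rw [if_pos]
  · rfl
  · refine ⟨?_, rfl⟩
    refine (C0_iff _ _ _).2 fun A B hB => ?_
    rw [List.length_replicate]
    unfold PF
    rw [List.length_replicate]
    exact hg A B hB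

theorem Fps_mem (e : ℕ) {d : List Bool} {z : Z} (hd : AccL e (oz z) d) (x : List Bool) :
    AccL e (oz z) (Fps e d (oz z) x) := by
  unfold Fps
  split_ifs with h
  · obtain ⟨h1, h2⟩ := h
    have h3 := (C0_iff _ _ _).1 h1 z.1 z.2.1 z.2.2
    unfold PF at h3
    rw [List.length_replicate] at h3
    have h4 : Ps e (pairBits (unpair x).1 (unpair (unpair x).2).1)
      (unpair (unpair x).2).2.length (oz z) := h3
    unfold Ps at h4
    simp only [unpair_pairBits] at h4
    have h5 : ue Dh (oz z) x = ev (unpair x).1 (unpair (unpair x).2).1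
      (unpair (unpair x).2).2.length (oz z) := rfl
    rw [← h5] at h4
    rcases hu : ue Dh (oz z) x with _ | ⟨b, u⟩
    · rw [hu] at h2; simp at h2
    · rw [hu] at h2
      simp only [List.head?_cons, Option.some.injEq] at h2
      subst h2
      rw [List.tail_cons]
      exact (h4 u hu).2
  · exact hd

/-- Every nonempty language in polynomial space has an optimal proof system. -/
theorem popt {z : Z} (hz : Gs z) {L : Set (List Bool)} (hL : IsPSPACE (oz z) L)
    (hne : L.Nonempty) : ∃ f : List Bool → List Bool, IsFP (oz z) f ∧ Set.range f = L ∧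
      ∀ g : List Bool → List Bool, IsFP (oz z) g → (∀ x, g x ∈ L) →
        ∃ τ : List Bool → List Bool, PolyTime τ ∧ ∀ x, g x = f (τ x) := by
  obtain ⟨e, he⟩ := exists_index hL
  obtain ⟨d, hd⟩ := hne
  have key : ∀ (M : Alg) (ℓ : ℕ) (B : Polynomial ℕ),
      (∀ (O : Oracle) y v, M.out O y = some v → v.length ≤ B.eval y.length) →
      (∀ z', Agr ℓ z z' → ∀ y v, M.out (oz z') y = some v → AccL e (oz z') v) →
      ∃ (h : List Bool) (T : Polynomial ℕ), ∀ x v, M.out (oz z) x = some v →
        Fps e d (oz z) (tr h T x) = v := by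
    intro M ℓ B hB hM
    obtain ⟨ps, hps⟩ := exists_qs ℓ
    obtain ⟨h, T, κ, hκ, hT⟩ := exists_forced ps z M [] (by simp)
    refine ⟨h, T + (sb e).comp B, fun x v hv => ?_⟩
    have ht : T.eval x.length ≤ (T + (sb e).comp B).eval x.length := by
      rw [Polynomial.eval_add]; omega
    have ht2 := (hκ _).trans ht
    refine Fps_tr e d (oz z) h x _ v ?_ ?_
    · intro A' B' hB'
      unfold Ps
      simp only [unpair_pairBits]
      intro u hu
      have hu' : ev h x ((T + (sb e).comp B).eval x.length) (oz (A', ⟨B', hB'⟩)) = true :: u := hu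
      obtain ⟨h1, _, h2⟩ := hT _ (A', ⟨B', hB'⟩) ht2
      by_cases hn : near ps z (A', ⟨B', hB'⟩)
      · have h3 := h1 hn x u hu'
        refine ⟨?_, hM _ (hps _ _ hn) x u h3⟩
        have h4 := hB _ _ _ h3
        rw [Polynomial.eval_add, Polynomial.eval_comp]
        have := eval_mono (sb e) h4
        omega
      · rw [h2 hn] at hu'
        simp at hu'
    · exact (hT _ z ht2).2.1 rfl x v ht hv
  refine ⟨Fps e d (oz z), isFP_Fps e d _ _, ?_, ?_⟩
  · ext u
    constructor
    · rintro ⟨x, rfl⟩
      exact (he _).2 (Fps_mem e ((he d).1 hd) x)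
    · intro hu
      have hu' := (he u).1 hu
      have hMo : ∀ (O : Oracle) (y : List Bool),
          Alg.out ⟨fun _ => true :: u, CC.const_polyTime _, 1⟩ O y = some u := by
        intro O y
        unfold Alg.out
        rw [Polynomial.eval_one]
        rfl
      obtain ⟨h, T, hT⟩ := key ⟨fun _ => true :: u, CC.const_polyTime _, 1⟩
        ((sb e).eval u.length) (Polynomial.C u.length) (by
          intro O y v hv
          rw [hMo] at hv
          simp only [Option.some.injEq] at hv
          subst hv
          rw [Polynomial.eval_C]) (by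
          intro z' hz' y v hv
          rw [hMo] at hv
          simp only [Option.some.injEq] at hv
          subst hv
          exact (AccL_congr e fun q hq => oz_agr hz' q hq).1 hu')
      exact ⟨_, hT [] u (hMo _ _)⟩
  · rintro g ⟨M, hM⟩ hg
    obtain ⟨B, hB⟩ := M.out_length
    obtain ⟨ℓ, hℓ⟩ := hz e M fun y v hv => by
      rw [hM y] at hv
      simp only [Option.some.injEq] at hv
      subst hv
      exact (he _).1 (hg y)
    obtain ⟨h, T, hT⟩ := key M ℓ B hB hℓ
    exact ⟨tr h T, polyTime_of_poly_list (poly_tr h T), fun x => (hT x _ (hM x)).symm⟩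

end Pool.Agent.W2helper58.GU
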