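import Pool.Agent.W2helper58.GU.Cmp

/-! The separations for generic pairs, and the theorem. -/

set_option autoImplicit false

namespace Pool.Agent.W2helper58.GU

open Pool.Agent.NPC Pool.Agent.H622R2 Pool.Agent.H620R2.Gauge Pool.Agent.H622R2.Exp
  Pool.Agent.TH678.RS Pool.Agent.TH678.GC Pool.Agent.H591R3.PHG Filter

theorem acc_congr (M : Alg) (z : Z) (y : List Bool) :
    ∃ ℓ, ∀ z', Agr ℓ z z' → acc M (oz z) y = acc M (oz z') y := by
  obtain ⟨qb, hqb⟩ := out_congr M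
  refine ⟨qb.eval y.length, fun z' hz' => ?_⟩
  unfold acc
  rw [hqb (oz z) (oz z') y fun q hq => oz_agr hz' q hq]

theorem Agr.mono {ℓ ℓ' : ℕ} {z z' : Z} (h : Agr ℓ' z z') (hl : ℓ ≤ ℓ') : Agr ℓ z z' :=
  fun u hu => h u (hu.trans hl)

theorem quant_congr (M : Alg) (z : Z) (m : ℕ) : ∀ (k : ℕ) (b : Bool) (y : List Bool),
    ∃ ℓ, ∀ z', Agr ℓ z z' → (Quant m (acc M (oz z)) k b y ↔ Quant m (acc M (oz z')) k b y) := by
  intro k
  induction k with
  | zero =>
    intro b y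
    obtain ⟨ℓ, hℓ⟩ := acc_congr M z y
    refine ⟨ℓ, fun z' hz' => ?_⟩
    cases b <;> simp only [Quant, hℓ z' hz']
  | succ k ih =>
    intro b y
    obtain ⟨W, _, hW⟩ := exists_short m
    choose f hf using fun w : List Bool => ih (!b) (pairBits w y)
    refine ⟨W.sup f, fun z' hz' => ?_⟩
    have key : ∀ w : List Bool, w.length ≤ m → (Quant m (acc M (oz z)) k (!b) (pairBits w y) ↔
        Quant m (acc M (oz z')) k (!b) (pairBits w y)) := fun w hw =>
      hf w z' (hz'.mono (Finset.le_sup (f := f) (hW w hw)))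
    cases b with
    | true =>
      simp only [Quant]
      exact exists_congr fun w => and_congr_right fun hw => key w hw
    | false =>
      simp only [Quant]
      exact forall_congr' fun w => imp_congr_right fun hw => key w hw

theorem foldr_congr {A A' : Oracle} {w : ℕ} : ∀ (as : List ℕ) (q : List Bool),
    (∀ u : List Bool, u.length ≤ q.length + as.sum + w → A u = A' u) →
    (as.foldr up (bitv A w)) q = (as.foldr up (bitv A' w)) q := by
  intro as
  induction as with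
  | nil =>
    intro q h
    show bitv A w q = bitv A' w q
    unfold bitv
    congr 1
    apply propext
    refine forall_congr' fun l => imp_congr_right fun hl => ?_
    rw [h]
    rw [List.length_append, List.length_replicate, List.sum_nil]
    omega
  | cons a as ih =>
    intro q h
    show decide (∀ i < 2 ^ a, (as.foldr up (bitv A w)) (q ++ bitsOf a i) = false) =
      decide (∀ i < 2 ^ a, (as.foldr up (bitv A' w)) (q ++ bitsOf a i) = false)
    congr 1
    apply propext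
    refine forall_congr' fun i => imp_congr_right fun _ => ?_
    rw [ih (q ++ bitsOf a i)]
    intro u hu
    apply h
    rw [List.length_append, length_bitsOf] at hu
    rw [List.sum_cons]
    omega

theorem lang_congr (k : ℕ) (z : Z) (x : List Bool) :
    ∃ ℓ, ∀ z', Agr ℓ z z' → (x ∈ lang k z.1 ↔ x ∈ lang k z'.1) := by
  refine ⟨x.length + (parse (k + 1) x).1.sum + (unpair (parse (k + 1) x).2).1.length,
    fun z' hz' => ?_⟩
  unfold Pool.Agent.H591R3.PHG.lang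
  rw [Set.mem_ofPred_eq, Set.mem_ofPred_eq, foldr_congr _ x fun u hu => (hz' u hu).1]

theorem tally_congr {B B' : Oracle} {x : List Bool}
    (h : ∀ u : List Bool, u.length ≤ x.length → B u = B' u) : x ∈ tally B ↔ x ∈ tally B' := by
  unfold tally
  rw [Set.mem_ofPred_eq, Set.mem_ofPred_eq]
  refine and_congr_right fun _ => exists_congr fun w => and_congr_right fun hw => ?_
  rw [h w hw.le]

theorem generic_PH (hPH : S_PH) : ∀ᶠ z in residual Z, ∀ (k : ℕ) (M : Alg) (p : Polynomial ℕ),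
    ∃ x : List Bool, ¬ (x ∈ lang k z.1 ↔ Quant (p.eval x.length) (acc M (oz z)) k true x) := by
  have hcn := CC.poly_countable
  have hc2 : Countable Alg := Alg.countable
  refine eventually_countable_forall.2 fun k => eventually_countable_forall.2 fun M =>
    eventually_countable_forall.2 fun p => ?_
  refine generic_dense (P := {z | ∃ x : List Bool, ¬ (x ∈ lang k z.1 ↔
    Quant (p.eval x.length) (acc M (oz z)) k true x)}) ?_ ?_
  · rintro z ⟨x, hx⟩
    obtain ⟨ℓ₁, h1⟩ := lang_congr k z x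
    obtain ⟨ℓ₂, h2⟩ := quant_congr M z (p.eval x.length) k true x
    refine ⟨max ℓ₁ ℓ₂, fun z' hz' => ⟨x, ?_⟩⟩
    rwa [← h1 z' (hz'.mono (le_max_left _ _)), ← h2 z' (hz'.mono (le_max_right _ _))]
  · intro z ℓ
    obtain ⟨A, h1, x, h2⟩ := hPH (join z.2.1 (join (Ub Dh) C0)) k M p z.1 ℓ
    exact ⟨(A, z.2), fun u hu => ⟨(h1 u hu).symm, rfl⟩, x, h2⟩

theorem generic_PUP (hP : S_PUP) : ∀ᶠ z in residual Z, ∀ (M : Alg),
    ∃ x : List Bool, ¬ (x ∈ tally z.2.1 ↔ acc M (oz z) x = [true]) := by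
  have hc2 : Countable Alg := Alg.countable
  refine eventually_countable_forall.2 fun M => ?_
  refine generic_dense (P := {z | ∃ x : List Bool, ¬ (x ∈ tally z.2.1 ↔
    acc M (oz z) x = [true])}) ?_ ?_
  · rintro z ⟨x, hx⟩
    obtain ⟨ℓ₂, h2⟩ := acc_congr M z x
    refine ⟨max x.length ℓ₂, fun z' hz' => ⟨x, ?_⟩⟩
    rwa [← tally_congr (B := z.2.1) fun u hu => (hz' u (hu.trans (le_max_left _ _))).2,
      ← h2 z' (hz'.mono (le_max_right _ _))]
  · intro z ℓ
    obtain ⟨B, h0, h1, x, h2⟩ := hP z.1 (join (Ub Dh) C0) M z.2.1 ℓ z.2.2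
    exact ⟨(z.1, ⟨B, h0⟩), fun u hu => ⟨rfl, (h1 u hu).symm⟩, x, h2⟩

theorem generic_UPNP (hP : S_UPNP) : ∀ᶠ z in residual Z, ∀ (M : Alg) (p : Polynomial ℕ),
    (∃ x w w' : List Bool, w.length ≤ p.eval x.length ∧ w'.length ≤ p.eval x.length ∧ w ≠ w' ∧
      acc M (oz z) (pairBits w x) = [true] ∧ acc M (oz z) (pairBits w' x) = [true]) ∨
    ∃ x : List Bool, ¬ (x ∈ tally z.1 ↔ Quant (p.eval x.length) (acc M (oz z)) 1 true x) := by
  have hcn := CC.poly_countable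
  have hc2 : Countable Alg := Alg.countable
  refine eventually_countable_forall.2 fun M => eventually_countable_forall.2 fun p => ?_
  refine generic_dense (P := {z |
    (∃ x w w' : List Bool, w.length ≤ p.eval x.length ∧ w'.length ≤ p.eval x.length ∧ w ≠ w' ∧
      acc M (oz z) (pairBits w x) = [true] ∧ acc M (oz z) (pairBits w' x) = [true]) ∨
    ∃ x : List Bool, ¬ (x ∈ tally z.1 ↔ Quant (p.eval x.length) (acc M (oz z)) 1 true x)}) ?_ ?_
  · rintro z (⟨x, w, w', h1, h2, h3, h4, h5⟩ | ⟨x, hx⟩)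
    · obtain ⟨ℓ₁, e1⟩ := acc_congr M z (pairBits w x)
      obtain ⟨ℓ₂, e2⟩ := acc_congr M z (pairBits w' x)
      refine ⟨max ℓ₁ ℓ₂, fun z' hz' => Or.inl ⟨x, w, w', h1, h2, h3, ?_, ?_⟩⟩
      · rw [← e1 z' (hz'.mono (le_max_left _ _)), h4]
      · rw [← e2 z' (hz'.mono (le_max_right _ _)), h5]
    · obtain ⟨ℓ₂, h2⟩ := quant_congr M z (p.eval x.length) 1 true x
      refine ⟨max x.length ℓ₂, fun z' hz' => Or.inr ⟨x, ?_⟩⟩
      rwa [← tally_congr (B := z.1) fun u hu => (hz' u (hu.trans (le_max_left _ _))).1,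
        ← h2 z' (hz'.mono (le_max_right _ _))]
  · intro z ℓ
    obtain ⟨A, h1, h2⟩ := hP (join z.2.1 (join (Ub Dh) C0)) M p z.1 ℓ
    exact ⟨(A, z.2), fun u hu => ⟨(h1 u hu).symm, rfl⟩, h2⟩

/-! ### Membership of the tally languages -/

/-- the verifier for a tally language: `π` tells the column -/
def tv (π : List Bool) (O : Oracle) (y : List Bool) : List Bool :=
  if ((unpair y).2 = (unpair y).2.map (fun _ => true) ∧
    (unpair y).1.length = (unpair y).2.length) ∧ [O (π ++ (unpair y).1)] = [true]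
  then [true] else []

theorem isFP_tv (π : List Bool) (O : Oracle) : IsFP O (tv π O) := by
  have h1 : Poly (fun y : List Bool => (unpair y).1) := Poly.fst poly_unpair
  have h2 : Poly (fun y : List Bool => (unpair y).2) := Poly.snd poly_unpair
  have hQ : Poly (fun y : List Bool => [π ++ (unpair y).1]) :=
    Poly.cons (Poly.append (NPC.Poly.const _) h1) (NPC.Poly.const [])
  have k1 : Poly (fun p : List Bool × List Bool => (unpair p.1).1) := h1.comp (Poly.fst Poly.id)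
  have k2 : Poly (fun p : List Bool × List Bool => (unpair p.1).2) := h2.comp (Poly.fst Poly.id)
  have hH : Poly (fun p : List Bool × List Bool =>
      if ((unpair p.1).2 = (unpair p.1).2.map (fun _ => true) ∧
        (unpair p.1).1.length = (unpair p.1).2.length) ∧ p.2 = [true] then [true] else []) :=
    Poly.ite (Poly.decide_and (Poly.decide_and
      (Poly.decide_eq k2 (NPC.Poly.map (F := fun _ _ => true) k2 (NPC.Poly.const true)))
      (Poly.decide_eq (Poly.length k1) (Poly.length k2)))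
      (Poly.decide_eq (Poly.snd Poly.id) (NPC.Poly.const _))) (NPC.Poly.const _) (NPC.Poly.const _)
  exact IsFP.tt hQ hH

theorem tv_iff (π : List Bool) (O : Oracle) (w x : List Bool) :
    tv π O (pairBits w x) = [true] ↔ x = List.replicate x.length true ∧ w.length = x.length ∧
      O (π ++ w) = true := by
  unfold tv
  simp only [unpair_pairBits, List.map_const', List.cons.injEq, and_true]
  split_ifs with h
  · simp only [true_iff]
    exact ⟨h.1.1, h.1.2, h.2⟩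
  · constructor
    · intro h4; simp at h4
    · rintro ⟨h1, h2, h3⟩
      exact absurd ⟨⟨h1, h2⟩, h3⟩ h

theorem tally_UP (z : Z) : IsUP (oz z) (tally z.2.1) := by
  refine ⟨_, Polynomial.X, isFP_tv [true, false] (oz z), ?_, fun x => ?_⟩
  · intro x w w' _ _ h1 h2
    rw [tv_iff] at h1 h2
    exact z.2.2 w w' (h1.2.1.trans h2.2.1.symm) h1.2.2 h2.2.2
  · simp only [tv_iff, Polynomial.eval_X]
    constructor
    · rintro ⟨h1, w, h2, h3⟩
      exact ⟨w, h2.le, h1, h2, h3⟩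
    · rintro ⟨w, _, h1, h2, h3⟩
      exact ⟨h1, w, h2, h3⟩

theorem tally_NP (z : Z) : IsNP (oz z) (tally z.1) := by
  refine ⟨_, Polynomial.X, isFP_tv [false] (oz z), fun x => ?_⟩
  simp only [tv_iff, Polynomial.eval_X]
  constructor
  · rintro ⟨h1, w, h2, h3⟩
    exact ⟨w, h2.le, h1, h2, h3⟩
  · rintro ⟨w, _, h1, h2, h3⟩
    exact ⟨h1, w, h2, h3⟩

theorem exists_acc {O : Oracle} {V : List Bool → List Bool} (hV : IsFP O V) :
    ∃ M : Alg, acc M O = V := by
  obtain ⟨M, hM⟩ := hV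
  refine ⟨M, funext fun y => ?_⟩
  unfold acc
  rw [hM]
  rfl

/-- a language of strings of ones -/
def Tally (L : Set (List Bool)) : Prop := ∀ x ∈ L, x = List.replicate x.length true

theorem final (hPH : S_PH) (hSIG : S_SIG) (hPUP : S_PUP) (hUPNP : S_UPNP) : ∃ O : Oracle,
    (∀ k : ℕ, ∃ L, IsSig O (k + 1) L ∧ ¬ IsSig O k L) ∧
    (∃ L, Tally L ∧ IsUP O L ∧ ¬ IsP O L) ∧
    (∃ L, Tally L ∧ IsNP O L ∧ ¬ IsUP O L) ∧
    (∃ K, IsUP O K ∧ ∀ L, IsUP O L → ∃ F : List Bool → List Bool, PolyTime F ∧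
      ∀ x, x ∈ L ↔ F x ∈ K) ∧
    (∃ K₀ K₁, IsCoNP O K₀ ∧ IsCoNP O K₁ ∧ Disjoint K₀ K₁ ∧ ∀ L₀ L₁, IsCoNP O L₀ → IsCoNP O L₁ →
      Disjoint L₀ L₁ → ∃ F : List Bool → List Bool, PolyTime F ∧
        ∀ x, (x ∈ L₀ ↔ F x ∈ K₀) ∧ (x ∈ L₁ ↔ F x ∈ K₁)) ∧
    (∃ K₀ K₁, IsNP O K₀ ∧ IsNP O K₁ ∧ Disjoint K₀ K₁ ∧ ∀ L₀ L₁, IsNP O L₀ → IsNP O L₁ →
      Disjoint L₀ L₁ → ∃ F : List Bool → List Bool, PolyTime F ∧
        ∀ x, (x ∈ L₀ ↔ F x ∈ K₀) ∧ (x ∈ L₁ ↔ F x ∈ K₁)) ∧
    ∀ L, IsPSPACE O L → L.Nonempty → ∃ f : List Bool → List Bool, IsFP O f ∧ Set.range f = L ∧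
      ∀ g : List Bool → List Bool, IsFP O g → (∀ x, g x ∈ L) →
        ∃ τ : List Bool → List Bool, PolyTime τ ∧ ∀ x, g x = f (τ x) := by
  obtain ⟨z, h1, h2, h3, h4, h5, h6, h7⟩ := exists_of_residual ((generic_PH hPH).and
    ((generic_PUP hPUP).and ((generic_UPNP hUPNP).and (generic_Gu.and (generic_Gc.and
      (generic_Gn.and generic_Gs))))))
  have hdis : ∀ {K₀ K₁ : Set (List Bool)}, Disjoint K₀ K₁ ↔ ∀ x, ¬ (x ∈ K₀ ∧ x ∈ K₁) := by
    intro K₀ K₁
    rw [Set.disjoint_left]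
    exact forall_congr' fun x => by rw [not_and]
  refine ⟨oz z, fun k => ⟨lang k z.1, hSIG _ _ _, ?_⟩, ⟨tally z.2.1, fun x hx => hx.1,
    tally_UP z, ?_⟩, ⟨tally z.1, fun x hx => hx.1, tally_NP z, ?_⟩, ⟨_, isUP_KN z, fun L hL =>
    UP_compl h4 hL⟩, ⟨_, _, isCoNP_KC [] false z.1 z.2.1, isCoNP_KC [] true z.1 z.2.1,
    hdis.2 (KC_disjoint z), fun L₀ L₁ hL₀ hL₁ hd => ?_⟩, ⟨_, _, isNP_KN [true] false z.1 z.2.1,
    isNP_KN [true] true z.1 z.2.1, hdis.2 (KN_disjoint z), fun L₀ L₁ hL₀ hL₁ hd => ?_⟩,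
    fun L hL hne => popt h7 hL hne⟩
  · rintro ⟨V, p, hV, hL⟩
    obtain ⟨M, rfl⟩ := exists_acc hV
    obtain ⟨x, hx⟩ := h1 k M p
    exact hx (hL x)
  · rintro ⟨V, hV, hL⟩
    obtain ⟨M, rfl⟩ := exists_acc hV
    obtain ⟨x, hx⟩ := h2 M
    exact hx (hL x)
  · rintro ⟨V, p, hV, hu, hL⟩
    obtain ⟨M, rfl⟩ := exists_acc hV
    rcases h3 M p with ⟨x, w, w', k1, k2, k3, k4, k5⟩ | ⟨x, hx⟩
    · exact k3 (hu x w w' k1 k2 k4 k5)
    · exact hx (hL x)
  · obtain ⟨F, hF, k1, k2⟩ := coNP_pair h5 hL₀ hL₁ (hdis.1 hd)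
    exact ⟨F, hF, fun x => ⟨k1 x, k2 x⟩⟩
  · obtain ⟨F, hF, k1, k2⟩ := NP_pair h6 hL₀ hL₁ (hdis.1 hd)
    exact ⟨F, hF, fun x => ⟨k1 x, k2 x⟩⟩

end Pool.Agent.W2helper58.GU
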