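import Pool.Agent.W2helper58.GU.Guide

/-! The promises which are certified by the guide. -/

set_option autoImplicit false

namespace Pool.Agent.W2helper58.GU

open Pool.Agent.NPC Pool.Agent.H622R2 Pool.Agent.H620R2.Gauge Pool.Agent.TH678.GC

theorem ev_congr (h y : List Bool) {t : ℕ} {O O' : Oracle}
    (hO : ∀ q : List Bool, q.length ≤ t → O q = O' q) : ev h y t O = ev h y t O' :=
  evr_congr _ hO _ _

theorem ue_eq (O : Oracle) (h y τ : List Bool) :
    ue Dh O (pairBits h (pairBits y τ)) = ev h y τ.length O := by
  unfold ue dx tm ev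
  simp only [unpair_pairBits]

/-! ### Polynomial space -/

/-- an enumeration of the algorithms with a bounded memory -/
noncomputable def sg : ℕ → SAlg × Polynomial ℕ := CC.exists_enum.choose

theorem sg_surj : Function.Surjective sg := CC.exists_enum.choose_spec

/-- a bound for the next action -/
noncomputable def sb (e : ℕ) : Polynomial ℕ := (CC.act_length (sg e).1 (sg e).2).choose

theorem sb_spec (e : ℕ) : ∀ x a : List Bool, a.length ≤ (sg e).2.eval x.length →
    ((sg e).1.act (pairBits x a)).length ≤ (sb e).eval x.length :=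
  (CC.act_length (sg e).1 (sg e).2).choose_spec

/-- acceptance by the `e`-th algorithm, with short questions -/
def AccL (e : ℕ) (O : Oracle) (u : List Bool) : Prop :=
  CC.Acc (sg e).1 (CC.cut ((sb e).eval u.length) O) u

theorem AccL_congr (e : ℕ) {O O' : Oracle} {u : List Bool}
    (h : ∀ q : List Bool, q.length ≤ (sb e).eval u.length → O q = O' q) :
    AccL e O u ↔ AccL e O' u := by
  have : CC.cut ((sb e).eval u.length) O = CC.cut ((sb e).eval u.length) O' := by
    funext z
    unfold CC.cut
    split_ifs with hz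
    · exact h z hz
    · rfl
  unfold AccL
  rw [this]

theorem exists_index {O : Oracle} {L : Set (List Bool)} (h : IsPSPACE O L) :
    ∃ e, ∀ x, x ∈ L ↔ AccL e O x := by
  obtain ⟨M, p, hM⟩ := h
  obtain ⟨e, he⟩ := sg_surj (M, p)
  refine ⟨e, fun x => ?_⟩
  have hbe := sb_spec e
  unfold AccL
  rw [he] at hbe ⊢
  obtain ⟨hM1, s, z, hs, hz, hL⟩ := hM x
  have hcong : ∀ s, M.Reach (CC.cut ((sb e).eval x.length) O) x s ↔ M.Reach O x s := by
    refine CC.reach_congr (fun s => s.length ≤ p.eval x.length) hM1 ?_
    intro s q h1 h2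
    have h3 := hbe x s h1
    dsimp only at h3
    rw [h2, List.length_cons] at h3
    unfold CC.cut
    rw [if_pos (by omega)]
  constructor
  · intro hx
    refine ⟨s, (hcong s).2 hs, ?_⟩
    dsimp only
    rw [hz, hL.1 hx]
  · rintro ⟨t, ht, ht2⟩
    have hst := CC.reach_unique hs ((hcong t).1 ht) ⟨_, hz⟩ ⟨_, ht2⟩
    dsimp only at ht2
    rw [hst, ht2] at hz
    simp only [List.cons.injEq, true_and] at hz
    exact hL.2 hz.symm

/-! ### The promises -/

/-- there is a witness for `y` -/
def In (h y : List Bool) (t : ℕ) (O : Oracle) : Prop :=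
  ∃ w : List Bool, w.length ≤ t ∧ ev h (pairBits w y) t O = [true, true]

theorem In_congr (h y : List Bool) {t : ℕ} {O O' : Oracle}
    (hO : ∀ q : List Bool, q.length ≤ t → O q = O' q) : In h y t O ↔ In h y t O' := by
  unfold In
  simp only [ev_congr h _ hO]

/-- the output of the algorithm is accepted by the `e`-th algorithm with bounded memory -/
def Ps (e : ℕ) (v : List Bool) (t : ℕ) (O : Oracle) : Prop :=
  ∀ u, ev (unpair v).1 (unpair v).2 t O = true :: u → (sb e).eval u.length ≤ t ∧ AccL e O u

/-- one of the two algorithms has a witness -/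
def Pc (v : List Bool) (t : ℕ) (O : Oracle) : Prop :=
  In (unpair v).1 (unpair (unpair v).2).2 t O ∨ In (unpair (unpair v).2).1 (unpair (unpair v).2).2 t O

/-- at least one of the two algorithms has no witness -/
def Pn (v : List Bool) (t : ℕ) (O : Oracle) : Prop :=
  ¬ (In (unpair v).1 (unpair (unpair v).2).2 t O ∧
    In (unpair (unpair v).2).1 (unpair (unpair v).2).2 t O)

/-- there is at most one witness -/
def Pu (v : List Bool) (t : ℕ) (O : Oracle) : Prop :=
  ∀ w w' : List Bool, w.length ≤ t → w'.length ≤ t →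
    ev (unpair v).1 (pairBits w (unpair (unpair v).2).2) t O = [true, true] →
    ev (unpair v).1 (pairBits w' (unpair (unpair v).2).2) t O = [true, true] → w = w'

theorem local_Ps (e : ℕ) (v : List Bool) : Local (Ps e v) := by
  intro t O O' hO
  unfold Ps
  rw [ev_congr _ _ hO]
  refine forall_congr' fun u => imp_congr_right fun _ => ?_
  constructor
  · rintro ⟨h1, h2⟩
    exact ⟨h1, (AccL_congr e fun q hq => hO q (hq.trans h1)).1 h2⟩
  · rintro ⟨h1, h2⟩
    exact ⟨h1, (AccL_congr e fun q hq => hO q (hq.trans h1)).2 h2⟩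

theorem local_Pc (v : List Bool) : Local (Pc v) := by
  intro t O O' hO
  unfold Pc
  rw [In_congr _ _ hO, In_congr _ _ hO]

theorem local_Pn (v : List Bool) : Local (Pn v) := by
  intro t O O' hO
  unfold Pn
  rw [In_congr _ _ hO, In_congr _ _ hO]

theorem local_Pu (v : List Bool) : Local (Pu v) := by
  intro t O O' hO
  unfold Pu
  simp only [ev_congr _ _ hO]

/-- all promises -/
def PF (g v : List Bool) (t : ℕ) (O : Oracle) : Prop :=
  match g.length with
  | 0 => Pc v t O
  | 1 => Pn v t O
  | 2 => Pu v t O
  | e + 3 => Ps e v t O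

theorem local_PF (g v : List Bool) : Local (PF g v) := by
  intro t O O' hO
  unfold PF
  match g.length with
  | 0 => exact local_Pc v t O O' hO
  | 1 => exact local_Pn v t O O' hO
  | 2 => exact local_Pu v t O O' hO
  | e + 3 => exact local_Ps e v t O O' hO

/-- the guide -/
noncomputable def C0 : Oracle := (exists_guide (Ub Dh) Uniq PF local_PF).choose

/-- the oracle with the free columns `A` and `B` -/
noncomputable def orc (A B : Oracle) : Oracle := orc4 A B (Ub Dh) C0

theorem C0_iff (g v τ : List Bool) : C0 (pairBits g (pairBits v τ)) = true ↔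
    ∀ A B : Oracle, Uniq B → PF g v τ.length (orc A B) :=
  (exists_guide (Ub Dh) Uniq PF local_PF).choose_spec g v τ

theorem isFP_ev (A B : Oracle) : IsFP (orc A B) (ue Dh (orc A B)) :=
  isFP_ue Dh _ fun _ => rfl

/-- the answer of the guide -/
noncomputable def gui (g v τ : List Bool) : Bool := C0 (pairBits g (pairBits v τ))

theorem isFP_gui (A B : Oracle) {g v τ : List Bool → List Bool} (hg : Poly g) (hv : Poly v)
    (hτ : Poly τ) : IsFP (orc A B) (fun x => [gui (g x) (v x) (τ x)]) := by
  have hQ : Poly (fun x : List Bool =>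
      [true :: true :: true :: pairBits (g x) (pairBits (v x) (τ x))]) :=
    Poly.cons (Poly.cons (NPC.Poly.const true) (Poly.cons (NPC.Poly.const true)
      (Poly.cons (NPC.Poly.const true) (poly_pairBits hg (poly_pairBits hv hτ)))))
      (NPC.Poly.const [])
  have h := IsFP.tt (A := orc A B) (H := fun p => p.2) hQ (Poly.snd Poly.id)
  exact h

end Pool.Agent.W2helper58.GU
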