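import Pool.Agent.W2helper58.GU.Opt

/-! Complete disjoint pairs and a complete language in `UP`. -/

set_option autoImplicit false

namespace Pool.Agent.W2helper58.GU

open Pool.Agent.NPC Pool.Agent.H622R2 Pool.Agent.H620R2.Gauge Pool.Agent.H622R2.Exp
  Pool.Agent.TH678.RS Pool.Agent.TH678.GC Filter
open Pool.Agent.H591R3.PHG.LangSig (length_unpair)

/-- the algorithm accepts the witness `w` for `y` -/
def ac (M : Alg) (O : Oracle) (w y : List Bool) : Prop := M.out O (pairBits w y) = some [true]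

theorem norm_ver {O : Oracle} {V : List Bool → List Bool} (hV : IsFP O V) (p : Polynomial ℕ) :
    ∃ M : Alg, ∀ w y : List Bool,
      (ac M O w y ↔ w.length ≤ p.eval y.length ∧ V (pairBits w y) = [true]) := by
  have h1 := IsFP.pair hV (IsFP.of_poly (A := O) (F := fun y => y) Poly.id)
  have hu : Poly (fun y : List Bool => unpair (unpair y).2) :=
    poly_unpair.comp (Poly.snd poly_unpair)
  have h2 : Poly (fun y : List Bool =>
      if (unpair (unpair y).2).1.length ≤ p.eval (unpair (unpair y).2).2.length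
      then (unpair y).1 else []) :=
    Poly.ite (Poly.decide_le (Poly.length (Poly.fst hu))
      (UPoly.toPoly ((UPoly.length (Poly.snd hu)).eval p)))
      (Poly.fst poly_unpair) (NPC.Poly.const _)
  obtain ⟨M, hM⟩ := IsFP.comp (IsFP.of_poly (A := O) h2) h1
  refine ⟨M, fun w y => ?_⟩
  unfold ac
  rw [hM]
  simp only [unpair_pairBits, Option.some.injEq]
  constructor
  · intro h
    split_ifs at h with h3
    exact ⟨h3, h⟩
  · rintro ⟨h3, h⟩
    rw [if_pos h3, h]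

/-! ### Genericity -/

/-- The disjointness of pairs in `coNP` is forced. -/
def Gc (z : Z) : Prop := ∀ (M₀ M₁ : Alg) (p : Polynomial ℕ),
  (∀ y : List Bool, ∃ w : List Bool, w.length ≤ p.eval y.length ∧
    (ac M₀ (oz z) w y ∨ ac M₁ (oz z) w y)) →
  ∃ ℓ, ∀ z', Agr ℓ z z' → ∀ y : List Bool, ∃ w : List Bool, w.length ≤ p.eval y.length ∧
    (ac M₀ (oz z') w y ∨ ac M₁ (oz z') w y)

/-- The disjointness of pairs in `NP` is forced. -/
def Gn (z : Z) : Prop := ∀ (M₀ M₁ : Alg),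
  (∀ y w w' : List Bool, ¬ (ac M₀ (oz z) w y ∧ ac M₁ (oz z) w' y)) →
  ∃ ℓ, ∀ z', Agr ℓ z z' → ∀ y w w' : List Bool, ¬ (ac M₀ (oz z') w y ∧ ac M₁ (oz z') w' y)

/-- The uniqueness of witnesses is forced. -/
def Gu (z : Z) : Prop := ∀ (M : Alg),
  (∀ y w w' : List Bool, ac M (oz z) w y → ac M (oz z) w' y → w = w') →
  ∃ ℓ, ∀ z', Agr ℓ z z' → ∀ y w w' : List Bool, ac M (oz z') w y → ac M (oz z') w' y → w = w'

theorem ac_congr (M : Alg) : ∃ qb : Polynomial ℕ, ∀ (w y : List Bool) (z z' : Z) (ℓ : ℕ),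
    Agr ℓ z z' → qb.eval (pairBits w y).length ≤ ℓ → (ac M (oz z) w y ↔ ac M (oz z') w y) := by
  obtain ⟨qb, hqb⟩ := out_congr M
  refine ⟨qb, fun w y z z' ℓ hz hℓ => ?_⟩
  unfold ac
  rw [hqb (oz z) (oz z') _ fun q hq => oz_agr hz q (hq.trans hℓ)]

theorem generic_Gc : ∀ᶠ z in residual Z, Gc z := by
  have hcn := CC.poly_countable
  have hc2 : Countable Alg := Alg.countable
  refine eventually_countable_forall.2 fun M₀ => eventually_countable_forall.2 fun M₁ =>
    eventually_countable_forall.2 fun p => ?_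
  obtain ⟨q₀, h₀⟩ := ac_congr M₀
  obtain ⟨q₁, h₁⟩ := ac_congr M₁
  exact generic_force (ι := List Bool)
    (fun y z => ∃ w : List Bool, w.length ≤ p.eval y.length ∧
      (ac M₀ (oz z) w y ∨ ac M₁ (oz z) w y)) (by
      intro y z hz
      refine ⟨q₀.eval (2 * p.eval y.length + 1 + y.length) +
        q₁.eval (2 * p.eval y.length + 1 + y.length), fun z' hz' => ?_⟩
      rintro ⟨w, hw, h⟩
      have hl : (pairBits w y).length ≤ 2 * p.eval y.length + 1 + y.length := by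
        rw [length_pairBits]; omega
      have e0 := eval_mono q₀ hl
      have e1 := eval_mono q₁ hl
      refine hz ⟨w, hw, ?_⟩
      rw [h₀ w y z z' _ hz' (by omega), h₁ w y z z' _ hz' (by omega)]
      exact h)

theorem generic_Gn : ∀ᶠ z in residual Z, Gn z := by
  have hc2 : Countable Alg := Alg.countable
  refine eventually_countable_forall.2 fun M₀ => eventually_countable_forall.2 fun M₁ => ?_
  obtain ⟨q₀, h₀⟩ := ac_congr M₀
  obtain ⟨q₁, h₁⟩ := ac_congr M₁
  have h := generic_force (ι := List Bool × List Bool × List Bool)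
    (fun i z => ¬ (ac M₀ (oz z) i.2.1 i.1 ∧ ac M₁ (oz z) i.2.2 i.1)) (by
      rintro ⟨y, w, w'⟩ z hz
      refine ⟨q₀.eval (pairBits w y).length + q₁.eval (pairBits w' y).length, fun z' hz' => ?_⟩
      dsimp only at hz ⊢
      rwa [h₀ w y z z' _ hz' (by omega), h₁ w' y z z' _ hz' (by omega)] at hz)
  filter_upwards [h] with z hz h1
  obtain ⟨ℓ, hℓ⟩ := hz fun i => h1 i.1 i.2.1 i.2.2
  exact ⟨ℓ, fun z' hz' y w w' => hℓ z' hz' (y, w, w')⟩

theorem generic_Gu : ∀ᶠ z in residual Z, Gu z := by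
  have hc2 : Countable Alg := Alg.countable
  refine eventually_countable_forall.2 fun M => ?_
  obtain ⟨q₀, h₀⟩ := ac_congr M
  have h := generic_force (ι := List Bool × List Bool × List Bool)
    (fun i z => ac M (oz z) i.2.1 i.1 → ac M (oz z) i.2.2 i.1 → i.2.1 = i.2.2) (by
      rintro ⟨y, w, w'⟩ z hz
      refine ⟨q₀.eval (pairBits w y).length + q₀.eval (pairBits w' y).length, fun z' hz' => ?_⟩
      dsimp only at hz ⊢
      rwa [h₀ w y z z' _ hz' (by omega), h₀ w' y z z' _ hz' (by omega)] at hz)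
  filter_upwards [h] with z hz h1
  obtain ⟨ℓ, hℓ⟩ := hz fun i => h1 i.1 i.2.1 i.2.2
  exact ⟨ℓ, fun z' hz' y w w' => hℓ z' hz' (y, w, w')⟩

/-! ### The complete languages -/

/-- first description -/
def X0 (x : List Bool) : List Bool := (unpair x).1
/-- second description -/
def X1 (x : List Bool) : List Bool := (unpair (unpair x).2).1
/-- the input -/
def Xy (x : List Bool) : List Bool := (unpair (unpair (unpair x).2).2).1
/-- the time -/
def Xt (x : List Bool) : List Bool := (unpair (unpair (unpair x).2).2).2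
/-- everything but the time -/
def Xv (x : List Bool) : List Bool := pairBits (X0 x) (pairBits (X1 x) (Xy x))

theorem length_Xt (x : List Bool) : (Xt x).length ≤ x.length := by
  have h1 := length_unpair x
  have h2 := length_unpair (unpair x).2
  have h3 := length_unpair (unpair (unpair x).2).2
  unfold Xt
  omega

/-- the chosen description -/
def Xb (b : Bool) (x : List Bool) : List Bool := if b then X1 x else X0 x

/-- the language for `NP` with the promise `g` -/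
noncomputable def KN (g : List Bool) (b : Bool) (O : Oracle) : Set (List Bool) :=
  {x | gui g (Xv x) (Xt x) = true ∧ In (Xb b x) (Xy x) (Xt x).length O}

/-- the language for `coNP` with the promise `g` -/
noncomputable def KC (g : List Bool) (b : Bool) (O : Oracle) : Set (List Bool) :=
  {x | gui g (Xv x) (Xt x) = true ∧ ¬ In (Xb b x) (Xy x) (Xt x).length O}

/-- the input for the evaluation -/
def arg (b : Bool) (y : List Bool) : List Bool :=
  pairBits (Xb b (unpair y).2) (pairBits (pairBits (unpair y).1 (Xy (unpair y).2)) (Xt (unpair y).2))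

theorem poly_X0 : Poly X0 := Poly.fst poly_unpair
theorem poly_X1 : Poly X1 := Poly.fst (poly_unpair.comp (Poly.snd poly_unpair))
theorem poly_X2 : Poly (fun x : List Bool => unpair (unpair (unpair x).2).2) :=
  poly_unpair.comp (Poly.snd (poly_unpair.comp (Poly.snd poly_unpair)))
theorem poly_Xy : Poly Xy := Poly.fst poly_X2
theorem poly_Xt : Poly Xt := Poly.snd poly_X2
theorem poly_Xv : Poly Xv := poly_pairBits poly_X0 (poly_pairBits poly_X1 poly_Xy)
theorem poly_Xb (b : Bool) : Poly (Xb b) := by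
  cases b
  · exact poly_X0.congr fun x => by simp [Xb]
  · exact poly_X1.congr fun x => by simp [Xb]

theorem poly_arg (b : Bool) : Poly (arg b) := by
  have h2 : Poly (fun y : List Bool => (unpair y).2) := Poly.snd poly_unpair
  have h1 : Poly (fun y : List Bool => (unpair y).1) := Poly.fst poly_unpair
  exact poly_pairBits ((poly_Xb b).comp h2) (poly_pairBits (poly_pairBits h1 (poly_Xy.comp h2))
    (poly_Xt.comp h2))

/-- the verifier, the bit `e` says that we want a witness if the promise is not certified -/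
noncomputable def ver (g : List Bool) (b e : Bool) (O : Oracle) (y : List Bool) : List Bool :=
  if gui g (Xv (unpair y).2) (Xt (unpair y).2) = true then
    (if (unpair y).1.length ≤ (Xt (unpair y).2).length ∧ ue Dh O (arg b y) = [true, true]
      then [true] else [])
  else (if e then [true] else [])

theorem isFP_ver (g : List Bool) (b e : Bool) (A B : Oracle) :
    IsFP (orc A B) (ver g b e (orc A B)) := by
  have hy2 : Poly (fun y : List Bool => (unpair y).2) := Poly.snd poly_unpair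
  have h1 := isFP_gui A B (NPC.Poly.const g) (poly_Xv.comp hy2) (poly_Xt.comp hy2)
  have h2 := IsFP.comp (isFP_ev A B) (IsFP.of_poly (A := orc A B) (poly_arg b))
  have h3 := IsFP.pair (IsFP.pair h1 h2) (IsFP.of_poly (A := orc A B) (F := fun y => y) Poly.id)
  have ha : Poly (fun u : List Bool => unpair (unpair u).1) :=
    poly_unpair.comp (Poly.fst poly_unpair)
  have hb : Poly (fun u : List Bool => unpair (unpair u).2) :=
    poly_unpair.comp (Poly.snd poly_unpair)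
  have h4 : Poly (fun u : List Bool => if (unpair (unpair u).1).1 = [true] then
      (if (unpair (unpair u).2).1.length ≤ (Xt (unpair (unpair u).2).2).length ∧
        (unpair (unpair u).1).2 = [true, true] then [true] else [])
      else (if e = true then [true] else [])) :=
    Poly.ite (Poly.decide_eq (Poly.fst ha) (NPC.Poly.const _))
      (Poly.ite (Poly.decide_and (Poly.decide_le (Poly.length (Poly.fst hb))
        (Poly.length (poly_Xt.comp (Poly.snd hb))))
        (Poly.decide_eq (Poly.snd ha) (NPC.Poly.const _))) (NPC.Poly.const _) (NPC.Poly.const _))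
      (NPC.Poly.const _)
  have h5 := IsFP.comp (IsFP.of_poly (A := orc A B) h4) h3
  refine (congrArg (IsFP (orc A B)) (funext fun y => ?_)).mp h5
  unfold ver
  simp only [unpair_pairBits, List.cons.injEq, and_true]

theorem ver_iff (g : List Bool) (b e : Bool) (O : Oracle) (w x : List Bool) :
    ver g b e O (pairBits w x) = [true] ↔ (gui g (Xv x) (Xt x) = true ∧
      w.length ≤ (Xt x).length ∧ ev (Xb b x) (pairBits w (Xy x)) (Xt x).length O = [true, true]) ∨
      (gui g (Xv x) (Xt x) ≠ true ∧ e = true) := by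
  unfold ver arg
  simp only [unpair_pairBits, ue_eq]
  by_cases h : gui g (Xv x) (Xt x) = true
  · rw [if_pos h]
    by_cases h2 : w.length ≤ (Xt x).length ∧
        ev (Xb b x) (pairBits w (Xy x)) (Xt x).length O = [true, true]
    · rw [if_pos h2]; simp [h, h2]
    · rw [if_neg h2]
      simp only [List.nil_eq, List.cons_ne_nil, false_iff, ne_eq]
      rintro (⟨_, h3⟩ | ⟨h3, _⟩)
      · exact h2 h3
      · exact h3 h
  · rw [if_neg h]
    cases e <;> simp [h]

theorem isNP_KN (g : List Bool) (b : Bool) (A B : Oracle) :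
    IsNP (orc A B) (KN g b (orc A B)) := by
  refine ⟨_, Polynomial.X, isFP_ver g b false A B, fun x => ?_⟩
  simp only [ver_iff, Polynomial.eval_X]
  constructor
  · rintro ⟨h1, w, h2, h3⟩
    exact ⟨w, h2.trans (length_Xt x), Or.inl ⟨h1, h2, h3⟩⟩
  · rintro ⟨w, _, ⟨h1, h2, h3⟩ | ⟨_, h2⟩⟩
    · exact ⟨h1, w, h2, h3⟩
    · simp at h2

theorem isCoNP_KC (g : List Bool) (b : Bool) (A B : Oracle) :
    IsCoNP (orc A B) (KC g b (orc A B)) := by
  refine ⟨_, Polynomial.X, isFP_ver g b true A B, fun x => ?_⟩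
  simp only [ver_iff, Polynomial.eval_X]
  constructor
  · intro h
    by_cases h1 : gui g (Xv x) (Xt x) = true
    · have h2 : In (Xb b x) (Xy x) (Xt x).length (orc A B) := by
        by_contra h3
        exact h ⟨h1, h3⟩
      obtain ⟨w, h2, h3⟩ := h2
      exact ⟨w, h2.trans (length_Xt x), Or.inl ⟨h1, h2, h3⟩⟩
    · exact ⟨[], by simp, Or.inr ⟨h1, by trivial⟩⟩
  · rintro ⟨w, _, ⟨h1, h2, h3⟩ | ⟨h1, _⟩⟩ ⟨h4, h5⟩
    · exact h5 ⟨w, h2, h3⟩
    · exact h1 h4

/-- the reduction -/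
def rd (h₀ h₁ : List Bool) (T : Polynomial ℕ) (y : List Bool) : List Bool :=
  pairBits h₀ (pairBits h₁ (pairBits y (List.replicate (T.eval y.length) true)))

theorem poly_rd (h₀ h₁ : List Bool) (T : Polynomial ℕ) : Poly (rd h₀ h₁ T) :=
  poly_pairBits (NPC.Poly.const _) (poly_pairBits (NPC.Poly.const _)
    (poly_pairBits Poly.id (poly_ones Poly.id T)))

theorem X_rd (h₀ h₁ : List Bool) (T : Polynomial ℕ) (y : List Bool) :
    X0 (rd h₀ h₁ T y) = h₀ ∧ X1 (rd h₀ h₁ T y) = h₁ ∧ Xy (rd h₀ h₁ T y) = y ∧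
      Xt (rd h₀ h₁ T y) = List.replicate (T.eval y.length) true ∧
      Xv (rd h₀ h₁ T y) = pairBits h₀ (pairBits h₁ y) := by
  unfold Xv X0 X1 Xy Xt rd
  simp only [unpair_pairBits, and_self]

/-- the data of a guarded verifier -/
structure Dat (ps : List (List Bool)) (z : Z) (M : Alg) (c : List Bool) (p : Polynomial ℕ) where
  h : List Bool
  T : Polynomial ℕ
  sound : ∀ (y : List Bool) (t : ℕ) (z' : Z), T.eval y.length ≤ t → near ps z z' →
    In h y t (oz z') → ∃ w, ac M (oz z') w y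
  soundW : ∀ (y w : List Bool) (t : ℕ) (z' : Z), T.eval y.length ≤ t → near ps z z' →
    ev h (pairBits w y) t (oz z') = [true, true] → ac M (oz z') w y
  compl : ∀ (y w : List Bool) (t : ℕ) (z' : Z), T.eval y.length ≤ t → near ps z z' →
    w.length ≤ p.eval y.length → ac M (oz z') w y → In h y t (oz z')
  far : ∀ (y : List Bool) (t : ℕ) (z' : Z), T.eval y.length ≤ t → ¬ near ps z z' →
    ∀ w, ev h w t (oz z') = c

theorem exists_dat (ps : List (List Bool)) (z : Z) (M : Alg) (c : List Bool)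
    (hc : c.head? ≠ some false) (p : Polynomial ℕ) : Nonempty (Dat ps z M c p) := by
  obtain ⟨h, T, κ, hκ, hT⟩ := exists_forced ps z M c hc
  have hs : ∀ (y w : List Bool) (t : ℕ) (z' : Z),
      (T.comp (Polynomial.C 2 * p + Polynomial.C 1 + Polynomial.X) + p).eval y.length ≤ t →
      near ps z z' → ev h (pairBits w y) t (oz z') = [true, true] → ac M (oz z') w y := by
    intro y w t z' ht hn hw
    rw [Polynomial.eval_add, Polynomial.eval_comp] at ht
    have hk := hκ ((Polynomial.C 2 * p + Polynomial.C 1 + Polynomial.X).eval y.length)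
    exact (hT t z' (by omega)).1 hn _ _ hw
  refine ⟨⟨h, T.comp (Polynomial.C 2 * p + Polynomial.C 1 + Polynomial.X) + p,
    fun y t z' ht hn ⟨w, _, hw⟩ => ⟨w, hs y w t z' ht hn hw⟩, hs, ?_, ?_⟩⟩
  · intro y w t z' ht hn hw hac
    rw [Polynomial.eval_add, Polynomial.eval_comp] at ht
    have hk := hκ ((Polynomial.C 2 * p + Polynomial.C 1 + Polynomial.X).eval y.length)
    have hl : (pairBits w y).length ≤
        (Polynomial.C 2 * p + Polynomial.C 1 + Polynomial.X).eval y.length := by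
      rw [length_pairBits]
      simp only [Polynomial.eval_add, Polynomial.eval_mul, Polynomial.eval_C, Polynomial.eval_X]
      omega
    have := eval_mono T hl
    exact ⟨w, by omega, (hT t z' (by omega)).2.1 hn _ _ (by omega) hac⟩
  · intro y t z' ht hn w
    rw [Polynomial.eval_add, Polynomial.eval_comp] at ht
    have hk := hκ ((Polynomial.C 2 * p + Polynomial.C 1 + Polynomial.X).eval y.length)
    exact (hT t z' (by omega)).2.2 hn _

theorem gui_rd {g h₀ h₁ : List Bool} {T : Polynomial ℕ} {y : List Bool}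
    (h : ∀ A B : Oracle, Uniq B →
      PF g (pairBits h₀ (pairBits h₁ y)) (T.eval y.length) (orc A B)) :
    gui g (Xv (rd h₀ h₁ T y)) (Xt (rd h₀ h₁ T y)) = true := by
  obtain ⟨_, _, _, h4, h5⟩ := X_rd h₀ h₁ T y
  rw [h4, h5]
  refine (C0_iff _ _ _).2 fun A B hB => ?_
  rw [List.length_replicate]
  exact h A B hB

theorem coNP_pair {z : Z} (hz : Gc z) {L₀ L₁ : Set (List Bool)} (h0 : IsCoNP (oz z) L₀)
    (h1 : IsCoNP (oz z) L₁) (hd : ∀ x, ¬ (x ∈ L₀ ∧ x ∈ L₁)) :
    ∃ F : List Bool → List Bool, PolyTime F ∧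
      (∀ x, x ∈ L₀ ↔ F x ∈ KC [] false (oz z)) ∧ ∀ x, x ∈ L₁ ↔ F x ∈ KC [] true (oz z) := by
  obtain ⟨V₀, p₀, hV₀, h0⟩ := h0
  obtain ⟨V₁, p₁, hV₁, h1⟩ := h1
  obtain ⟨M₀, hM₀⟩ := norm_ver hV₀ p₀
  obtain ⟨M₁, hM₁⟩ := norm_ver hV₁ p₁
  have hpe : ∀ n, (p₀ + p₁).eval n = p₀.eval n + p₁.eval n := fun n => Polynomial.eval_add
  have e0 : ∀ y, y ∉ L₀ ↔ ∃ w, ac M₀ (oz z) w y := by
    intro y
    simp only [hM₀]
    exact h0 y
  have e1 : ∀ y, y ∉ L₁ ↔ ∃ w, ac M₁ (oz z) w y := by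
    intro y
    simp only [hM₁]
    exact h1 y
  obtain ⟨ℓ, hℓ⟩ := hz M₀ M₁ (p₀ + p₁) (by
    intro y
    by_cases hy : y ∈ L₀
    · obtain ⟨w, hw⟩ := (e1 y).1 fun hy' => hd y ⟨hy, hy'⟩
      have := ((hM₁ w y).1 hw).1
      exact ⟨w, by rw [hpe]; omega, Or.inr hw⟩
    · obtain ⟨w, hw⟩ := (e0 y).1 hy
      have := ((hM₀ w y).1 hw).1
      exact ⟨w, by rw [hpe]; omega, Or.inl hw⟩)
  obtain ⟨ps, hps⟩ := exists_qs ℓ
  obtain ⟨D₀⟩ := exists_dat ps z M₀ [true, true] (by simp) (p₀ + p₁)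
  obtain ⟨D₁⟩ := exists_dat ps z M₁ [true, true] (by simp) (p₀ + p₁)
  have hT0 : ∀ n, D₀.T.eval n ≤ (D₀.T + D₁.T).eval n := fun n => by rw [Polynomial.eval_add]; omega
  have hT1 : ∀ n, D₁.T.eval n ≤ (D₀.T + D₁.T).eval n := fun n => by rw [Polynomial.eval_add]; omega
  have hg : ∀ y, gui [] (Xv (rd D₀.h D₁.h (D₀.T + D₁.T) y))
      (Xt (rd D₀.h D₁.h (D₀.T + D₁.T) y)) = true := by
    intro y
    refine gui_rd fun A B hB => ?_
    show Pc _ _ _
    unfold Pc
    simp only [unpair_pairBits]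
    by_cases hn : near ps z (A, ⟨B, hB⟩)
    · obtain ⟨w, hw, h2 | h2⟩ := hℓ _ (hps _ _ hn) y
      · exact Or.inl (D₀.compl y w _ _ (hT0 _) hn hw h2)
      · exact Or.inr (D₁.compl y w _ _ (hT1 _) hn hw h2)
    · exact Or.inl ⟨[], by simp, D₀.far y _ _ (hT0 _) hn _⟩
  refine ⟨rd D₀.h D₁.h (D₀.T + D₁.T), polyTime_of_poly_list (poly_rd _ _ _), fun x => ?_,
    fun x => ?_⟩
  · obtain ⟨hx0, hx1, hxy, hxt, _⟩ := X_rd D₀.h D₁.h (D₀.T + D₁.T) x
    have h3 : In D₀.h x ((D₀.T + D₁.T).eval x.length) (oz z) ↔ x ∉ L₀ := by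
      rw [e0]
      constructor
      · exact D₀.sound x _ z (hT0 _) rfl
      · rintro ⟨w, hw⟩
        have := ((hM₀ w x).1 hw).1
        exact D₀.compl x w _ z (hT0 _) rfl (by rw [hpe]; omega) hw
    have h4 : rd D₀.h D₁.h (D₀.T + D₁.T) x ∈ KC [] false (oz z) ↔
        (gui [] (Xv (rd D₀.h D₁.h (D₀.T + D₁.T) x)) (Xt (rd D₀.h D₁.h (D₀.T + D₁.T) x)) = true ∧
        ¬ In (Xb false (rd D₀.h D₁.h (D₀.T + D₁.T) x)) (Xy (rd D₀.h D₁.h (D₀.T + D₁.T) x))
          (Xt (rd D₀.h D₁.h (D₀.T + D₁.T) x)).length (oz z)) := Iff.rfl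
    rw [h4, hxy, hxt, List.length_replicate]
    have h5 : Xb false (rd D₀.h D₁.h (D₀.T + D₁.T) x) = D₀.h := by simp [Xb, hx0]
    rw [h5, h3, not_not]
    constructor
    · intro hx
      have := hg x
      rw [hxt] at this
      exact ⟨this, hx⟩
    · exact fun hx => hx.2
  · obtain ⟨hx0, hx1, hxy, hxt, _⟩ := X_rd D₀.h D₁.h (D₀.T + D₁.T) x
    have h3 : In D₁.h x ((D₀.T + D₁.T).eval x.length) (oz z) ↔ x ∉ L₁ := by
      rw [e1]
      constructor
      · exact D₁.sound x _ z (hT1 _) rfl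
      · rintro ⟨w, hw⟩
        have := ((hM₁ w x).1 hw).1
        exact D₁.compl x w _ z (hT1 _) rfl (by rw [hpe]; omega) hw
    have h4 : rd D₀.h D₁.h (D₀.T + D₁.T) x ∈ KC [] true (oz z) ↔
        (gui [] (Xv (rd D₀.h D₁.h (D₀.T + D₁.T) x)) (Xt (rd D₀.h D₁.h (D₀.T + D₁.T) x)) = true ∧
        ¬ In (Xb true (rd D₀.h D₁.h (D₀.T + D₁.T) x)) (Xy (rd D₀.h D₁.h (D₀.T + D₁.T) x))
          (Xt (rd D₀.h D₁.h (D₀.T + D₁.T) x)).length (oz z)) := Iff.rfl
    rw [h4, hxy, hxt, List.length_replicate]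
    have h5 : Xb true (rd D₀.h D₁.h (D₀.T + D₁.T) x) = D₁.h := by simp [Xb, hx1]
    rw [h5, h3, not_not]
    constructor
    · intro hx
      have := hg x
      rw [hxt] at this
      exact ⟨this, hx⟩
    · exact fun hx => hx.2

theorem KC_disjoint (z : Z) (x : List Bool) :
    ¬ (x ∈ KC [] false (oz z) ∧ x ∈ KC [] true (oz z)) := by
  rintro ⟨⟨h1, h2⟩, ⟨_, h3⟩⟩
  have h4 := (C0_iff _ _ _).1 h1 z.1 z.2.1 z.2.2
  have h5 : Pc (Xv x) (Xt x).length (oz z) := h4
  unfold Pc Xv at h5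
  simp only [unpair_pairBits] at h5
  rcases h5 with h5 | h5
  · exact h2 h5
  · exact h3 h5

theorem NP_pair {z : Z} (hz : Gn z) {L₀ L₁ : Set (List Bool)} (h0 : IsNP (oz z) L₀)
    (h1 : IsNP (oz z) L₁) (hd : ∀ x, ¬ (x ∈ L₀ ∧ x ∈ L₁)) :
    ∃ F : List Bool → List Bool, PolyTime F ∧
      (∀ x, x ∈ L₀ ↔ F x ∈ KN [true] false (oz z)) ∧ ∀ x, x ∈ L₁ ↔ F x ∈ KN [true] true (oz z) := by
  obtain ⟨V₀, p₀, hV₀, h0⟩ := h0
  obtain ⟨V₁, p₁, hV₁, h1⟩ := h1
  obtain ⟨M₀, hM₀⟩ := norm_ver hV₀ p₀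
  obtain ⟨M₁, hM₁⟩ := norm_ver hV₁ p₁
  have hpe : ∀ n, (p₀ + p₁).eval n = p₀.eval n + p₁.eval n := fun n => Polynomial.eval_add
  have e0 : ∀ y, y ∈ L₀ ↔ ∃ w, ac M₀ (oz z) w y := by
    intro y
    simp only [hM₀]
    exact h0 y
  have e1 : ∀ y, y ∈ L₁ ↔ ∃ w, ac M₁ (oz z) w y := by
    intro y
    simp only [hM₁]
    exact h1 y
  obtain ⟨ℓ, hℓ⟩ := hz M₀ M₁ fun y w w' h =>
    hd y ⟨(e0 y).2 ⟨w, h.1⟩, (e1 y).2 ⟨w', h.2⟩⟩
  obtain ⟨ps, hps⟩ := exists_qs ℓ
  obtain ⟨D₀⟩ := exists_dat ps z M₀ [true] (by simp) (p₀ + p₁)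
  obtain ⟨D₁⟩ := exists_dat ps z M₁ [true] (by simp) (p₀ + p₁)
  have hT0 : ∀ n, D₀.T.eval n ≤ (D₀.T + D₁.T).eval n := fun n => by rw [Polynomial.eval_add]; omega
  have hT1 : ∀ n, D₁.T.eval n ≤ (D₀.T + D₁.T).eval n := fun n => by rw [Polynomial.eval_add]; omega
  have hg : ∀ y, gui [true] (Xv (rd D₀.h D₁.h (D₀.T + D₁.T) y))
      (Xt (rd D₀.h D₁.h (D₀.T + D₁.T) y)) = true := by
    intro y
    refine gui_rd fun A B hB => ?_
    show Pn _ _ _
    unfold Pn
    simp only [unpair_pairBits]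
    rintro ⟨h2, h3⟩
    by_cases hn : near ps z (A, ⟨B, hB⟩)
    · obtain ⟨w, hw⟩ := D₀.sound y _ _ (hT0 _) hn h2
      obtain ⟨w', hw'⟩ := D₁.sound y _ _ (hT1 _) hn h3
      exact hℓ _ (hps _ _ hn) y w w' ⟨hw, hw'⟩
    · obtain ⟨w, _, hw⟩ := h2
      have h4 := D₀.far y _ _ (hT0 _) hn (pairBits w y)
      rw [show oz (A, ⟨B, hB⟩) = orc A B from rfl] at h4
      rw [h4] at hw
      simp at hw
  refine ⟨rd D₀.h D₁.h (D₀.T + D₁.T), polyTime_of_poly_list (poly_rd _ _ _), fun x => ?_,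
    fun x => ?_⟩
  · obtain ⟨hx0, hx1, hxy, hxt, _⟩ := X_rd D₀.h D₁.h (D₀.T + D₁.T) x
    have h3 : In D₀.h x ((D₀.T + D₁.T).eval x.length) (oz z) ↔ x ∈ L₀ := by
      rw [e0]
      constructor
      · exact D₀.sound x _ z (hT0 _) rfl
      · rintro ⟨w, hw⟩
        have := ((hM₀ w x).1 hw).1
        exact D₀.compl x w _ z (hT0 _) rfl (by rw [hpe]; omega) hw
    have h4 : rd D₀.h D₁.h (D₀.T + D₁.T) x ∈ KN [true] false (oz z) ↔
        (gui [true] (Xv (rd D₀.h D₁.h (D₀.T + D₁.T) x))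
          (Xt (rd D₀.h D₁.h (D₀.T + D₁.T) x)) = true ∧
        In (Xb false (rd D₀.h D₁.h (D₀.T + D₁.T) x)) (Xy (rd D₀.h D₁.h (D₀.T + D₁.T) x))
          (Xt (rd D₀.h D₁.h (D₀.T + D₁.T) x)).length (oz z)) := Iff.rfl
    rw [h4, hxy, hxt, List.length_replicate]
    have h5 : Xb false (rd D₀.h D₁.h (D₀.T + D₁.T) x) = D₀.h := by simp [Xb, hx0]
    rw [h5, h3]
    constructor
    · intro hx
      have := hg x
      rw [hxt] at this
      exact ⟨this, hx⟩
    · exact fun hx => hx.2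
  · obtain ⟨hx0, hx1, hxy, hxt, _⟩ := X_rd D₀.h D₁.h (D₀.T + D₁.T) x
    have h3 : In D₁.h x ((D₀.T + D₁.T).eval x.length) (oz z) ↔ x ∈ L₁ := by
      rw [e1]
      constructor
      · exact D₁.sound x _ z (hT1 _) rfl
      · rintro ⟨w, hw⟩
        have := ((hM₁ w x).1 hw).1
        exact D₁.compl x w _ z (hT1 _) rfl (by rw [hpe]; omega) hw
    have h4 : rd D₀.h D₁.h (D₀.T + D₁.T) x ∈ KN [true] true (oz z) ↔
        (gui [true] (Xv (rd D₀.h D₁.h (D₀.T + D₁.T) x))
          (Xt (rd D₀.h D₁.h (D₀.T + D₁.T) x)) = true ∧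
        In (Xb true (rd D₀.h D₁.h (D₀.T + D₁.T) x)) (Xy (rd D₀.h D₁.h (D₀.T + D₁.T) x))
          (Xt (rd D₀.h D₁.h (D₀.T + D₁.T) x)).length (oz z)) := Iff.rfl
    rw [h4, hxy, hxt, List.length_replicate]
    have h5 : Xb true (rd D₀.h D₁.h (D₀.T + D₁.T) x) = D₁.h := by simp [Xb, hx1]
    rw [h5, h3]
    constructor
    · intro hx
      have := hg x
      rw [hxt] at this
      exact ⟨this, hx⟩
    · exact fun hx => hx.2

theorem KN_disjoint (z : Z) (x : List Bool) :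
    ¬ (x ∈ KN [true] false (oz z) ∧ x ∈ KN [true] true (oz z)) := by
  rintro ⟨⟨h1, h2⟩, ⟨_, h3⟩⟩
  have h4 := (C0_iff _ _ _).1 h1 z.1 z.2.1 z.2.2
  have h5 : Pn (Xv x) (Xt x).length (oz z) := h4
  unfold Pn Xv at h5
  simp only [unpair_pairBits] at h5
  exact h5 ⟨h2, h3⟩

theorem isUP_KN (z : Z) : IsUP (oz z) (KN [true, true] false (oz z)) := by
  refine ⟨_, Polynomial.X, isFP_ver [true, true] false false _ _, ?_, fun x => ?_⟩
  · intro x w w' _ _ h1 h2
    rw [ver_iff] at h1 h2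
    rcases h1 with ⟨h1, h3, h4⟩ | ⟨_, h1⟩
    · rcases h2 with ⟨_, h5, h6⟩ | ⟨_, h2⟩
      · have h7 := (C0_iff _ _ _).1 h1 z.1 z.2.1 z.2.2
        have h8 : Pu (Xv x) (Xt x).length (oz z) := h7
        unfold Pu Xv at h8
        simp only [unpair_pairBits] at h8
        exact h8 w w' h3 h5 h4 h6
      · simp at h2
    · simp at h1
  · have h1 := isNP_KN [true, true] false z.1 z.2.1
    simp only [ver_iff, Polynomial.eval_X]
    constructor
    · rintro ⟨h1, w, h2, h3⟩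
      exact ⟨w, h2.trans (length_Xt x), Or.inl ⟨h1, h2, h3⟩⟩
    · rintro ⟨w, _, ⟨h1, h2, h3⟩ | ⟨_, h2⟩⟩
      · exact ⟨h1, w, h2, h3⟩
      · simp at h2

theorem UP_compl {z : Z} (hz : Gu z) {L : Set (List Bool)} (h0 : IsUP (oz z) L) :
    ∃ F : List Bool → List Bool, PolyTime F ∧
      ∀ x, x ∈ L ↔ F x ∈ KN [true, true] false (oz z) := by
  obtain ⟨V₀, p₀, hV₀, hu, h0⟩ := h0
  obtain ⟨M₀, hM₀⟩ := norm_ver hV₀ p₀
  have e0 : ∀ y, y ∈ L ↔ ∃ w, ac M₀ (oz z) w y := by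
    intro y
    simp only [hM₀]
    exact h0 y
  obtain ⟨ℓ, hℓ⟩ := hz M₀ fun y w w' h1 h2 => by
    rw [hM₀] at h1 h2
    exact hu y w w' h1.1 h2.1 h1.2 h2.2
  obtain ⟨ps, hps⟩ := exists_qs ℓ
  obtain ⟨D₀⟩ := exists_dat ps z M₀ [true] (by simp) p₀
  have hg : ∀ y, gui [true, true] (Xv (rd D₀.h [] D₀.T y)) (Xt (rd D₀.h [] D₀.T y)) = true := by
    intro y
    refine gui_rd fun A B hB => ?_
    show Pu _ _ _
    unfold Pu
    simp only [unpair_pairBits]
    intro w w' _ _ h2 h3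
    by_cases hn : near ps z (A, ⟨B, hB⟩)
    · exact hℓ _ (hps _ _ hn) y w w' (D₀.soundW y w _ _ le_rfl hn h2)
        (D₀.soundW y w' _ _ le_rfl hn h3)
    · have h4 := D₀.far y _ _ le_rfl hn (pairBits w y)
      rw [show oz (A, ⟨B, hB⟩) = orc A B from rfl] at h4
      rw [h4] at h2
      simp at h2
  refine ⟨rd D₀.h [] D₀.T, polyTime_of_poly_list (poly_rd _ _ _), fun x => ?_⟩
  obtain ⟨hx0, hx1, hxy, hxt, _⟩ := X_rd D₀.h [] D₀.T x
  have h3 : In D₀.h x (D₀.T.eval x.length) (oz z) ↔ x ∈ L := by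
    rw [e0]
    constructor
    · exact D₀.sound x _ z le_rfl rfl
    · rintro ⟨w, hw⟩
      exact D₀.compl x w _ z le_rfl rfl ((hM₀ w x).1 hw).1 hw
  have h4 : rd D₀.h [] D₀.T x ∈ KN [true, true] false (oz z) ↔
      (gui [true, true] (Xv (rd D₀.h [] D₀.T x)) (Xt (rd D₀.h [] D₀.T x)) = true ∧
      In (Xb false (rd D₀.h [] D₀.T x)) (Xy (rd D₀.h [] D₀.T x))
        (Xt (rd D₀.h [] D₀.T x)).length (oz z)) := Iff.rfl
  rw [h4, hxy, hxt, List.length_replicate]
  have h5 : Xb false (rd D₀.h [] D₀.T x) = D₀.h := by simp [Xb, hx0]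
  rw [h5, h3]
  constructor
  · intro hx
    have := hg x
    rw [hxt] at this
    exact ⟨this, hx⟩
  · exact fun hx => hx.2

end Pool.Agent.W2helper58.GU
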