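import Pool.Agent.W2helper58.GU.Fam

/-! Generic pairs of columns. -/

set_option autoImplicit false

namespace Pool.Agent.W2helper58.GU

open Pool.Agent.NPC Pool.Agent.H620R2.Gauge Pool.Agent.H622R2.Exp Pool.Agent.TH678.RS
  Pool.Agent.TH678.GC Filter

/-- the pairs of columns -/
abbrev Z : Type := Oracle × {B : Oracle // Uniq B}

/-- agreement up to the length `ℓ` -/
def Agr (ℓ : ℕ) (z z' : Z) : Prop :=
  ∀ u : List Bool, u.length ≤ ℓ → z.1 u = z'.1 u ∧ z.2.1 u = z'.2.1 u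

theorem isClosed_uniq : IsClosed {B : Oracle | Uniq B} := by
  have h : {B : Oracle | Uniq B} = ⋂ w : List Bool, ⋂ w' : List Bool,
      {B : Oracle | w.length = w'.length → B w = true → B w' = true → w = w'} := by
    ext B
    simp only [Set.mem_iInter]
    exact Iff.rfl
  rw [h]
  refine isClosed_iInter fun w => isClosed_iInter fun w' => ?_
  by_cases hw : w.length = w'.length ∧ w ≠ w'
  · have e : {B : Oracle | w.length = w'.length → B w = true → B w' = true → w = w'} =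
        {B : Oracle | B w = false} ∪ {B : Oracle | B w' = false} := by
      ext B
      simp only [Set.mem_union, Set.mem_ofPred_eq]
      constructor
      · intro h
        cases h1 : B w
        · exact Or.inl rfl
        · cases h2 : B w'
          · exact Or.inr rfl
          · exact absurd (h hw.1 h1 h2) hw.2
      · rintro (h | h) _ h1 h2
        · rw [h] at h1; simp at h1
        · rw [h] at h2; simp at h2
    rw [e]
    exact (isClosed_eq (continuous_apply w) continuous_const).union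
      (isClosed_eq (continuous_apply w') continuous_const)
  · have e : {B : Oracle | w.length = w'.length → B w = true → B w' = true → w = w'} =
        Set.univ := by
      ext B
      simp only [Set.mem_ofPred_eq, Set.mem_univ, iff_true]
      intro h1 _ _
      by_contra h2
      exact hw ⟨h1, h2⟩
    rw [e]
    exact isClosed_univ

instance : CompactSpace {B : Oracle // Uniq B} :=
  isCompact_iff_compactSpace.1 isClosed_uniq.isCompact

instance : Nonempty {B : Oracle // Uniq B} := ⟨⟨fun _ => false, fun _ _ _ h => by simp at h⟩⟩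

theorem exists_of_residual {p : Z → Prop} (h : ∀ᶠ z in residual Z, p z) : ∃ z, p z :=
  (dense_of_mem_residual h).nonempty

theorem isOpen_agr (ℓ : ℕ) (z : Z) : IsOpen {z' : Z | Agr ℓ z z'} := by
  obtain ⟨W, _, hW⟩ := exists_short ℓ
  have h1 : ∀ z₁ : Z, Agr ℓ z z₁ →
      ∃ t ⊆ {z' : Z | Agr ℓ z z'}, IsOpen t ∧ z₁ ∈ t := by
    intro z₁ h1
    refine ⟨⋂ u ∈ {u ∈ W | u.length ≤ ℓ}, ({z' : Z | z'.1 u = z.1 u} ∩
      {z' : Z | z'.2.1 u = z.2.1 u}), ?_, ?_, ?_⟩
    · intro z' hz' u hu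
      simp only [Set.mem_iInter] at hz'
      have := hz' u (by
        simp only [Finset.mem_filter]
        exact ⟨hW u hu, hu⟩)
      exact ⟨this.1.symm, this.2.symm⟩
    · refine isOpen_biInter_finset fun u _ => ?_
      refine IsOpen.inter ?_ ?_
      · have hc : Continuous (fun z' : Z => z'.1 u) := (continuous_apply u).comp continuous_fst
        exact hc.isOpen_preimage _ (isOpen_discrete {z.1 u})
      · have hc : Continuous (fun z' : Z => z'.2.1 u) :=
          (continuous_apply u).comp (continuous_subtype_val.comp continuous_snd)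
        exact hc.isOpen_preimage _ (isOpen_discrete {z.2.1 u})
    · simp only [Set.mem_iInter]
      intro u hu
      simp only [Finset.mem_filter] at hu
      exact ⟨(h1 u hu.2).1.symm, (h1 u hu.2).2.symm⟩
  exact isOpen_iff_forall_mem_open.2 h1

theorem isOpen_of_agr {P : Set Z} (h : ∀ z ∈ P, ∃ ℓ : ℕ, ∀ z', Agr ℓ z z' → z' ∈ P) :
    IsOpen P := by
  rw [isOpen_iff_forall_mem_open]
  intro z hz
  obtain ⟨ℓ, hℓ⟩ := h z hz
  exact ⟨_, fun z' hz' => hℓ z' hz', isOpen_agr ℓ z, fun u _ => ⟨rfl, rfl⟩⟩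

theorem exists_agr {P : Set Z} (hP : IsOpen P) {z : Z} (hz : z ∈ P) :
    ∃ ℓ : ℕ, ∀ z', Agr ℓ z z' → z' ∈ P := by
  obtain ⟨V₁, V₂, h1, h2, hz1, hz2, hV⟩ := isOpen_prod_iff.1 hP z.1 z.2 hz
  obtain ⟨V₃, h3, h4⟩ := isOpen_induced_iff.1 h2
  obtain ⟨I₁, u₁, hu1, hu2⟩ := isOpen_pi_iff.1 h1 z.1 hz1
  have hz3 : z.2.1 ∈ V₃ := by
    have : z.2 ∈ Subtype.val ⁻¹' V₃ := by rw [h4]; exact hz2
    exact this
  obtain ⟨I₂, u₂, hu3, hu4⟩ := isOpen_pi_iff.1 h3 z.2.1 hz3
  refine ⟨max (I₁.sup List.length) (I₂.sup List.length), fun z' hz' => ?_⟩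
  have hm : (z'.1, z'.2) ∈ V₁ ×ˢ V₂ := by
    constructor
    · refine hu2 fun u hu => ?_
      rw [← (hz' u ((Finset.le_sup (f := List.length) hu).trans (le_max_left _ _))).1]
      exact (hu1 u hu).2
    · rw [← h4]
      refine hu4 fun u hu => ?_
      rw [← (hz' u ((Finset.le_sup (f := List.length) hu).trans (le_max_right _ _))).2]
      exact (hu3 u hu).2
  exact hV hm

theorem dense_of_agr {P : Set Z} (h : ∀ (z : Z) (ℓ : ℕ), ∃ z', Agr ℓ z z' ∧ z' ∈ P) :
    Dense P := by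
  rw [dense_iff_inter_open]
  rintro V hV ⟨z, hz⟩
  obtain ⟨ℓ, hℓ⟩ := exists_agr hV hz
  obtain ⟨z', h1, h2⟩ := h z ℓ
  exact ⟨z', hℓ z' h1, h2⟩

/-- a generic pair is in every dense open set -/
theorem generic_dense {P : Set Z} (h1 : ∀ z ∈ P, ∃ ℓ : ℕ, ∀ z', Agr ℓ z z' → z' ∈ P)
    (h2 : ∀ (z : Z) (ℓ : ℕ), ∃ z', Agr ℓ z z' ∧ z' ∈ P) : ∀ᶠ z in residual Z, z ∈ P :=
  residual_of_dense_open (isOpen_of_agr h1) (dense_of_agr h2)

/-- If a closed property holds for a generic pair, then it holds for all pairs close to it. -/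
theorem generic_force {ι : Type} (W : ι → Z → Prop)
    (hW : ∀ i z, ¬ W i z → ∃ ℓ : ℕ, ∀ z', Agr ℓ z z' → ¬ W i z') :
    ∀ᶠ z in residual Z, (∀ i, W i z) → ∃ ℓ : ℕ, ∀ z', Agr ℓ z z' → ∀ i, W i z' := by
  have hD : IsOpen {z : Z | ∃ i, ¬ W i z} := by
    refine isOpen_of_agr ?_
    rintro z ⟨i, hi⟩
    obtain ⟨ℓ, hℓ⟩ := hW i z hi
    exact ⟨ℓ, fun z' hz' => ⟨i, hℓ z' hz'⟩⟩
  have hU : IsOpen ({z : Z | ∃ i, ¬ W i z} ∪ interior {z : Z | ∃ i, ¬ W i z}ᶜ) :=
    hD.union isOpen_interior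
  have hd : Dense ({z : Z | ∃ i, ¬ W i z} ∪ interior {z : Z | ∃ i, ¬ W i z}ᶜ) := by
    intro z
    rw [interior_compl, closure_union]
    by_cases h : z ∈ closure {z : Z | ∃ i, ¬ W i z}
    · exact Or.inl h
    · exact Or.inr (subset_closure h)
  filter_upwards [residual_of_dense_open hU hd] with z hz hz2
  rcases hz with ⟨i, hi⟩ | hz
  · exact absurd (hz2 i) hi
  · obtain ⟨ℓ, hℓ⟩ := exists_agr isOpen_interior hz
    refine ⟨ℓ, fun z' hz' i => ?_⟩
    have h3 : z' ∈ {z : Z | ∃ i, ¬ W i z}ᶜ := interior_subset (hℓ z' hz')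
    by_contra h4
    exact h3 ⟨i, h4⟩

/-- the oracle -/
noncomputable def oz (z : Z) : Oracle := orc z.1 z.2.1

theorem oz_agr {ℓ : ℕ} {z z' : Z} (h : Agr ℓ z z') (q : List Bool) (hq : q.length ≤ ℓ) :
    oz z q = oz z' q :=
  orc4_congr (fun u hu => (h u hu).1) (fun u hu => (h u hu).2) (fun _ _ => rfl) q hq

end Pool.Agent.W2helper58.GU
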