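import Pool.Agent.W2helper58.GU.Mach

/-! Bounded evaluation of an algorithm whose actions are told by the oracle. -/

set_option autoImplicit false

namespace Pool.Agent.W2helper58.GU

open Pool.Agent.NPC Pool.Agent.H622R2 Pool.Agent.H620R2.Gauge

/-- Run the algorithm with the actions `D` for at most `n` actions, all of which have length at most
`t + 1`. The value is `true :: z` if it stops with output `z`, and `[]` if it does not. -/
def evr (D : List Bool → List Bool) (O : Oracle) (t : ℕ) : ℕ → List Bool → List Bool
  | 0, _ => []
  | n + 1, a =>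
    if t + 1 < (D a).length then [] else
      match D a with
      | [] => []
      | true :: z => true :: z
      | false :: q => evr D O t n (a ++ [O q])

/-- the action, or nothing if it is too long -/
def clip (t : ℕ) (α : List Bool) : List Bool := if t + 1 < α.length then [] else α

theorem clip_le (t : ℕ) (α : List Bool) : (clip t α).length ≤ t + 1 := by
  unfold clip
  split_ifs with h
  · simp
  · omega

theorem evr_succ (D : List Bool → List Bool) (O : Oracle) (t n : ℕ) (a : List Bool) :
    evr D O t (n + 1) a = if (clip t (D a)).head? = some false then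
      evr D O t n (a ++ [O (clip t (D a)).tail]) else clip t (D a) := by
  rw [evr]
  unfold clip
  by_cases h : t + 1 < (D a).length
  · rw [if_pos h, if_pos h]; rfl
  · rw [if_neg h, if_neg h]
    rcases D a with _ | ⟨b, z⟩
    · rfl
    · cases b <;> simp

theorem evr_length (D : List Bool → List Bool) (O : Oracle) (t : ℕ) : ∀ (n : ℕ) (a : List Bool),
    (evr D O t n a).length ≤ t + 1 := by
  intro n
  induction n with
  | zero => intro a; simp [evr]
  | succ n ih =>
    intro a
    rw [evr_succ]
    split_ifs
    · exact ih _
    · exact clip_le _ _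

theorem evr_head (D : List Bool → List Bool) (O : Oracle) (t : ℕ) : ∀ (n : ℕ) (a : List Bool),
    (evr D O t n a).head? ≠ some false := by
  intro n
  induction n with
  | zero => intro a; simp [evr]
  | succ n ih =>
    intro a
    rw [evr_succ]
    split_ifs with h
    · exact ih _
    · exact h

theorem evr_congr (D : List Bool → List Bool) {O O' : Oracle} {t : ℕ}
    (h : ∀ q : List Bool, q.length ≤ t → O q = O' q) : ∀ (n : ℕ) (a : List Bool),
    evr D O t n a = evr D O' t n a := by
  intro n
  induction n with
  | zero => intro a; rfl
  | succ n ih =>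
    intro a
    rw [evr_succ, evr_succ]
    split_ifs with h1
    · rw [ih, h]
      have := clip_le t (D a)
      rw [List.length_tail]
      omega
    · rfl

/-! ### The bits of the actions -/

/-- the code word of an action -/
def cw (t : ℕ) (α : List Bool) : List Bool := pairBits (clip t α) []

/-- the bits of the code words -/
def Ub (D : List Bool → List Bool → List Bool → List Bool) : Oracle := fun s =>
  (cw (unpair (unpair (unpair s).2).2).1.length (D (unpair s).1 (unpair (unpair s).2).1
    (unpair (unpair (unpair (unpair s).2).2).2).1)).getD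
    (unpair (unpair (unpair (unpair s).2).2).2).2.length false

/-- the question for the next bit of the code word -/
def ubq (h y τ a w : List Bool) : List Bool :=
  pairBits h (pairBits y (pairBits τ (pairBits a w)))

theorem Ub_ubq (D : List Bool → List Bool → List Bool → List Bool) (h y τ a w : List Bool) :
    Ub D (ubq h y τ a w) = (cw τ.length (D h y a)).getD w.length false := by
  unfold Ub ubq
  simp only [unpair_pairBits]

/-- the code word, filled up with zeros -/
def cwf (t : ℕ) (α : List Bool) : List Bool :=
  (List.range (2 * t + 4)).map (fun i => (cw t α).getD i false)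

theorem cwf_get (t : ℕ) (α : List Bool) (i : ℕ) (h : i < (cwf t α).length) :
    (cwf t α)[i] = (cw t α).getD i false := by
  simp only [cwf, List.getElem_map, List.getElem_range]

theorem cwf_eq (t : ℕ) (α : List Bool) : cwf t α = pairBits (clip t α)
    (List.replicate (2 * t + 4 - (cw t α).length) false) := by
  have hl : (cw t α).length ≤ 2 * t + 3 := by
    unfold cw
    rw [A2.length_pairBits]
    have := clip_le t α
    simp only [List.length_nil]
    omega
  have e : pairBits (clip t α) (List.replicate (2 * t + 4 - (cw t α).length) false) =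
      cw t α ++ List.replicate (2 * t + 4 - (cw t α).length) false := by
    unfold cw
    simp [pairBits]
  rw [e]
  apply List.ext_getElem
  · unfold cwf
    rw [List.length_map, List.length_range, List.length_append, List.length_replicate]
    omega
  · intro i h1 h2
    rw [cwf_get, List.getElem_append]
    by_cases h : i < (cw t α).length
    · rw [dif_pos h, List.getD_eq_getElem _ _ h]
    · rw [dif_neg h, List.getElem_replicate, List.getD_eq_default _ _ (by omega)]

theorem unpair_cwf (t : ℕ) (α : List Bool) : (unpair (cwf t α)).1 = clip t α := by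
  rw [cwf_eq, unpair_pairBits]

theorem length_cwf (t : ℕ) (α : List Bool) : (cwf t α).length = 2 * t + 4 := by
  simp [cwf]

/-! ### The algorithm -/

/-- the bound -/
def tm (x : List Bool) : ℕ := (unpair (unpair x).2).2.length

/-- the number of questions -/
def nq (x : List Bool) : ℕ := tm x * (2 * tm x + 5) + (2 * tm x + 4)

/-- the next question -/
def uq (p : List Bool × List Bool × List Bool) : List Bool :=
  if p.2.2.length < 2 * tm p.1 + 4 then
    true :: true :: false :: ubq (unpair p.1).1 (unpair (unpair p.1).2).1
      (unpair (unpair p.1).2).2 p.2.1 p.2.2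
  else if (unpair p.2.2).1.head? = some false then (unpair p.2.2).1.tail else []

/-- the new state -/
def us (p : List Bool × (List Bool × List Bool) × Bool) : List Bool × List Bool :=
  if p.2.1.2.length < 2 * tm p.1 + 4 then (p.2.1.1, p.2.1.2 ++ [p.2.2])
  else if (unpair p.2.1.2).1.head? = some false then (p.2.1.1 ++ [p.2.2], []) else p.2.1

/-- the output -/
def uo (p : List Bool × List Bool × List Bool) : List Bool :=
  if p.2.2.length < 2 * tm p.1 + 4 then []
  else if (unpair p.2.2).1.head? = some false then [] else (unpair p.2.2).1

theorem upoly_tm : UPoly tm := UPoly.length (Poly.snd (poly_unpair.comp (Poly.snd poly_unpair)))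

theorem upoly_nq : UPoly nq :=
  UPoly.add (UPoly.mul upoly_tm (UPoly.add (UPoly.mul (UPoly.const 2) upoly_tm) (UPoly.const 5)))
    (UPoly.add (UPoly.mul (UPoly.const 2) upoly_tm) (UPoly.const 4))

theorem poly_lim {β : Type} [TEnc β] {f : β → List Bool} (hf : Poly f) :
    Poly (fun b => 2 * tm (f b) + 4) :=
  UPoly.toPoly (UPoly.add (UPoly.mul (UPoly.const 2) (upoly_tm.comp hf)) (UPoly.const 4))

theorem poly_ubq {β : Type} [TEnc β] {h y τ a w : β → List Bool} (h1 : Poly h) (h2 : Poly y)
    (h3 : Poly τ) (h4 : Poly a) (h5 : Poly w) :
    Poly (fun b => ubq (h b) (y b) (τ b) (a b) (w b)) :=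
  poly_pairBits h1 (poly_pairBits h2 (poly_pairBits h3 (poly_pairBits h4 h5)))

theorem poly_uq : Poly uq := by
  have hx : Poly (fun p : List Bool × List Bool × List Bool => p.1) := Poly.fst Poly.id
  have ha : Poly (fun p : List Bool × List Bool × List Bool => p.2.1) :=
    Poly.fst (Poly.snd Poly.id)
  have hw : Poly (fun p : List Bool × List Bool × List Bool => p.2.2) :=
    Poly.snd (Poly.snd Poly.id)
  have h1 : Poly (fun p : List Bool × List Bool × List Bool => (unpair p.1).1) :=
    Poly.fst (poly_unpair.comp hx)
  have h2 : Poly (fun p : List Bool × List Bool × List Bool => unpair (unpair p.1).2) :=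
    poly_unpair.comp (Poly.snd (poly_unpair.comp hx))
  have h3 : Poly (fun p : List Bool × List Bool × List Bool => (unpair p.2.2).1) :=
    Poly.fst (poly_unpair.comp hw)
  unfold uq
  exact Poly.ite (Poly.decide_lt (Poly.length hw) (poly_lim hx))
    (Poly.cons (NPC.Poly.const true) (Poly.cons (NPC.Poly.const true)
      (Poly.cons (NPC.Poly.const false) (poly_ubq h1 (Poly.fst h2) (Poly.snd h2) ha hw))))
    (Poly.ite (Poly.decide_eq (Poly.head? h3) (NPC.Poly.const _)) (Poly.tail h3)
      (NPC.Poly.const _))

theorem poly_us : Poly us := by
  have hx : Poly (fun p : List Bool × (List Bool × List Bool) × Bool => p.1) := Poly.fst Poly.id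
  have hs : Poly (fun p : List Bool × (List Bool × List Bool) × Bool => p.2.1) :=
    Poly.fst (Poly.snd Poly.id)
  have hb : Poly (fun p : List Bool × (List Bool × List Bool) × Bool => [p.2.2]) :=
    Poly.cons (Poly.snd (Poly.snd Poly.id)) (NPC.Poly.const [])
  have hw := Poly.snd hs
  have h3 : Poly (fun p : List Bool × (List Bool × List Bool) × Bool => (unpair p.2.1.2).1) :=
    Poly.fst (poly_unpair.comp hw)
  unfold us
  exact Poly.ite (Poly.decide_lt (Poly.length hw) (poly_lim hx))
    (Poly.pair (Poly.fst hs) (Poly.append hw hb))
    (Poly.ite (Poly.decide_eq (Poly.head? h3) (NPC.Poly.const _))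
      (Poly.pair (Poly.append (Poly.fst hs) hb) (NPC.Poly.const [])) hs)

theorem poly_uo : Poly uo := by
  have hx : Poly (fun p : List Bool × List Bool × List Bool => p.1) := Poly.fst Poly.id
  have hw : Poly (fun p : List Bool × List Bool × List Bool => p.2.2) :=
    Poly.snd (Poly.snd Poly.id)
  have h3 : Poly (fun p : List Bool × List Bool × List Bool => (unpair p.2.2).1) :=
    Poly.fst (poly_unpair.comp hw)
  unfold uo
  exact Poly.ite (Poly.decide_lt (Poly.length hw) (poly_lim hx)) (NPC.Poly.const _)
    (Poly.ite (Poly.decide_eq (Poly.head? h3) (NPC.Poly.const _)) (NPC.Poly.const _) h3)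

theorem sz_snoc (l : List Bool) (b : Bool) : sz (l ++ [b]) ≤ sz l + 4 := by
  have h1 := sz_append l [b]
  have h2 := sz_bool_le b
  simp only [sz_list_cons, sz_list_nil] at h1
  omega

theorem sz_us (x : List Bool) (s : List Bool × List Bool) (b : Bool) :
    sz (us (x, s, b)) ≤ sz s + 4 := by
  obtain ⟨a, w⟩ := s
  have h1 := sz_snoc a b
  have h2 := sz_snoc w b
  have h3 := sz_pos w
  unfold us
  dsimp only
  split_ifs
  · simp only [sz_pair]; omega
  · simp only [sz_pair, sz_list_nil]; omega
  · simp only [sz_pair]; omega

theorem sz_fold (x a : List Bool) : ∀ s : List Bool × List Bool,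
    sz (a.foldl (fun s b => us (x, s, b)) s) ≤ sz s + 4 * a.length := by
  induction a with
  | nil => intro s; simp
  | cons b a ih =>
    intro s
    rw [List.foldl_cons]
    refine (ih _).trans ?_
    have := sz_us x s b
    rw [List.length_cons]
    omega

section run

variable (D : List Bool → List Bool → List Bool → List Bool) (O : Oracle)
  (hU : ∀ s, O (true :: true :: false :: s) = Ub D s) (x : List Bool)

/-- the state -/
def ust (n : ℕ) : List Bool × List Bool := iter O (fun _ => (([], []) : List Bool × List Bool)) uq us x n

theorem ust_succ (n : ℕ) : ust O x (n + 1) = us (x, ust O x n, O (uq (x, ust O x n))) := rfl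

/-- the actions -/
def dx : List Bool → List Bool := D (unpair x).1 (unpair (unpair x).2).1

include hU in
theorem ust_read {k : ℕ} {a : List Bool} (hk : ust O x k = (a, [])) : ∀ j ≤ 2 * tm x + 4,
    ust O x (k + j) = (a, (cwf (tm x) (dx D x a)).take j) := by
  intro j
  induction j with
  | zero => intro _; rw [add_zero, hk]; simp
  | succ j ih =>
    intro hj
    have h1 := ih (by omega)
    have hl : ((cwf (tm x) (dx D x a)).take j).length = j := by
      rw [List.length_take, length_cwf]; omega
    have hlt : ((cwf (tm x) (dx D x a)).take j).length < 2 * tm x + 4 := by omega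
    rw [← add_assoc, ust_succ, h1]
    unfold us uq
    dsimp only
    rw [if_pos hlt, if_pos hlt, hU, Ub_ubq]
    congr 1
    have hj' : j < (cwf (tm x) (dx D x a)).length := by rw [length_cwf]; omega
    rw [List.take_succ_eq_append_getElem hj', hl]
    congr 2
    rw [cwf_get]
    rfl

include hU in
theorem ust_full {k : ℕ} {a : List Bool} (hk : ust O x k = (a, [])) :
    ust O x (k + (2 * tm x + 4)) = (a, cwf (tm x) (dx D x a)) := by
  rw [ust_read D O hU x hk _ le_rfl, List.take_of_length_le (by rw [length_cwf])]

include hU in
theorem ust_next {k : ℕ} {a : List Bool} (hk : ust O x k = (a, []))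
    (h : (clip (tm x) (dx D x a)).head? = some false) :
    ust O x (k + (2 * tm x + 4) + 1) = (a ++ [O (clip (tm x) (dx D x a)).tail], []) := by
  rw [ust_succ, ust_full D O hU x hk]
  have hl : ¬ (cwf (tm x) (dx D x a)).length < 2 * tm x + 4 := by rw [length_cwf]; omega
  unfold us uq
  dsimp only
  rw [if_neg hl, if_neg hl, unpair_cwf, if_pos h, if_pos h]

include hU in
theorem ust_stay {k : ℕ} {a : List Bool} (hk : ust O x k = (a, []))
    (h : (clip (tm x) (dx D x a)).head? ≠ some false) : ∀ j,
    ust O x (k + (2 * tm x + 4) + j) = (a, cwf (tm x) (dx D x a)) := by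
  intro j
  induction j with
  | zero => rw [add_zero]; exact ust_full D O hU x hk
  | succ j ih =>
    rw [← add_assoc, ust_succ, ih]
    have hl : ¬ (cwf (tm x) (dx D x a)).length < 2 * tm x + 4 := by rw [length_cwf]; omega
    unfold us
    dsimp only
    rw [if_neg hl, unpair_cwf, if_neg h]

include hU in
theorem ust_run : ∀ (n k : ℕ) (a : List Bool), ust O x k = (a, []) →
    uo (x, ust O x (k + (n * (2 * tm x + 5) + (2 * tm x + 4)))) =
      evr (dx D x) O (tm x) (n + 1) a := by
  intro n
  induction n with
  | zero =>
    intro k a hk
    rw [zero_mul, zero_add, ust_full D O hU x hk, evr_succ]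
    have hl : ¬ (cwf (tm x) (dx D x a)).length < 2 * tm x + 4 := by rw [length_cwf]; omega
    unfold uo
    dsimp only
    rw [if_neg hl, unpair_cwf]
    rfl
  | succ n ih =>
    intro k a hk
    rw [evr_succ]
    by_cases h : (clip (tm x) (dx D x a)).head? = some false
    · rw [if_pos h, ← ih _ _ (ust_next D O hU x hk h)]
      congr 3
      ring
    · rw [if_neg h]
      have e : k + ((n + 1) * (2 * tm x + 5) + (2 * tm x + 4)) =
          k + (2 * tm x + 4) + (n + 1) * (2 * tm x + 5) := by ring
      rw [e, ust_stay D O hU x hk h]
      have hl : ¬ (cwf (tm x) (dx D x a)).length < 2 * tm x + 4 := by rw [length_cwf]; omega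
      unfold uo
      dsimp only
      rw [if_neg hl, unpair_cwf, if_neg h]

end run

/-- bounded evaluation of the algorithm given by the first component of `x` -/
def ue (D : List Bool → List Bool → List Bool → List Bool) (O : Oracle) (x : List Bool) :
    List Bool := evr (dx D x) O (tm x) (tm x + 1) []

theorem isFP_ue (D : List Bool → List Bool → List Bool → List Bool) (O : Oracle)
    (hU : ∀ s, O (true :: true :: false :: s) = Ub D s) : IsFP O (ue D O) := by
  have h1 := mach O (init := fun _ => (([], []) : List Bool × List Bool)) (N := nq) (qu := uq)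
    (st := us) (out := uo) (NPC.Poly.const _) upoly_nq poly_uq poly_us poly_uo
    (Polynomial.C 4 * Polynomial.X + Polynomial.C 3) (by
      intro x a
      refine (sz_fold x a _).trans ?_
      have h2 := length_lt_sz a
      simp only [sz_pair, sz_list_nil, Polynomial.eval_add, Polynomial.eval_mul,
        Polynomial.eval_C, Polynomial.eval_X]
      omega)
  have h2 : (fun x => uo (x, iter O (fun _ => (([], []) : List Bool × List Bool)) uq us x (nq x))) =
      ue D O := by
    funext x
    have h3 := ust_run D O hU x (tm x) 0 [] rfl
    rw [zero_add] at h3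
    exact h3
  rw [h2] at h1
  exact h1

end Pool.Agent.W2helper58.GU
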