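import Pool.Agent.W2helper58.GU.Stm
import Pool.Agent.W2helper58.GU.UE

/-! The guide. -/

set_option autoImplicit false

namespace Pool.Agent.W2helper58.GU

open Pool.Agent.NPC Pool.Agent.H622R2 Pool.Agent.H620R2.Gauge Pool.Agent.TH678.GC

open Classical in
/-- recursion on the length -/
noncomputable def gd (Q : List Bool → Oracle → Prop) (s : List Bool) : Bool :=
  decide (Q s (fun u => if _h : u.length < s.length then gd Q u else false))
termination_by s.length

/-- the oracle with the columns `A`, `B`, `U`, `C` -/
def orc4 (A B U C : Oracle) : Oracle := join A (join B (join U C))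

theorem orc4_A (A B U C : Oracle) (s : List Bool) : orc4 A B U C (false :: s) = A s := rfl

theorem orc4_B (A B U C : Oracle) (s : List Bool) : orc4 A B U C (true :: false :: s) = B s := rfl

theorem orc4_U (A B U C : Oracle) (s : List Bool) :
    orc4 A B U C (true :: true :: false :: s) = U s := rfl

theorem orc4_C (A B U C : Oracle) (s : List Bool) :
    orc4 A B U C (true :: true :: true :: s) = C s := rfl

/-- only the values at the short strings matter -/
def Local (P : ℕ → Oracle → Prop) : Prop :=
  ∀ t O O', (∀ q : List Bool, q.length ≤ t → O q = O' q) → (P t O ↔ P t O')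

theorem orc4_congr {A B U C A' B' C' : Oracle} {t : ℕ}
    (hA : ∀ q : List Bool, q.length ≤ t → A q = A' q)
    (hB : ∀ q : List Bool, q.length ≤ t → B q = B' q)
    (hC : ∀ q : List Bool, q.length ≤ t → C q = C' q) (q : List Bool) (hq : q.length ≤ t) :
    orc4 A B U C q = orc4 A' B' U C' q := by
  rcases q with _ | ⟨b, q⟩
  · rfl
  cases b with
  | false => exact hA q (by rw [List.length_cons] at hq; omega)
  | true =>
    rcases q with _ | ⟨b, q⟩
    · rfl
    cases b with
    | false => exact hB q (by simp only [List.length_cons] at hq; omega)
    | true =>
      rcases q with _ | ⟨b, q⟩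
      · rfl
      cases b with
      | false => rfl
      | true => exact hC q (by simp only [List.length_cons] at hq; omega)

theorem exists_guide (U : Oracle) (𝒰 : Oracle → Prop) (P : List Bool → List Bool → ℕ → Oracle → Prop)
    (hP : ∀ g v, Local (P g v)) :
    ∃ C : Oracle, ∀ g v τ : List Bool, C (pairBits g (pairBits v τ)) = true ↔
      ∀ A B : Oracle, 𝒰 B → P g v τ.length (orc4 A B U C) := by
  classical
  set Q : List Bool → Oracle → Prop := fun s C' => ∀ A B : Oracle, 𝒰 B →
    P (unpair s).1 (unpair (unpair s).2).1 (unpair (unpair s).2).2.length (orc4 A B U C') with hQ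
  refine ⟨gd Q, fun g v τ => ?_⟩
  rw [gd, decide_eq_true_iff, hQ]
  simp only [unpair_pairBits]
  refine forall_congr' fun A => forall_congr' fun B => imp_congr_right fun _ => ?_
  refine hP g v _ _ _ fun q hq => ?_
  refine orc4_congr (fun _ _ => rfl) (fun _ _ => rfl) (fun u hu => ?_) q hq
  rw [dif_pos]
  simp only [length_pairBits]
  omega

/-! ### The machines -/

/-- ask the questions `ps` first; continue if the answers are `bs`, and otherwise act as `c` -/
def guard (ps : List (List Bool)) (bs c : List Bool) (D : List Bool → List Bool)
    (a : List Bool) : List Bool :=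
  if a.length < ps.length then false :: ps.getD a.length []
  else if a.take ps.length = bs then D (a.drop ps.length) else c

/-- stop with the empty output instead of an empty action -/
def nrm (α : List Bool) : List Bool := if α = [] then [true] else α

theorem guard_pre {ps : List (List Bool)} {bs c : List Bool} {D : List Bool → List Bool}
    {O : Oracle} {t : ℕ} (hps : ∀ q ∈ ps, q.length ≤ t) (n : ℕ) : ∀ k ≤ ps.length,
    evr (guard ps bs c D) O t (k + n) ((ps.map O).take (ps.length - k)) =
      evr (guard ps bs c D) O t n (ps.map O) := by
  intro k
  induction k with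
  | zero =>
    intro _
    rw [zero_add, Nat.sub_zero, List.take_of_length_le (by simp)]
  | succ k ih =>
    intro hk
    have hl : ((ps.map O).take (ps.length - (k + 1))).length = ps.length - (k + 1) := by
      rw [List.length_take, List.length_map]; omega
    have hi : ps.length - (k + 1) < ps.length := by omega
    have hg : guard ps bs c D ((ps.map O).take (ps.length - (k + 1))) =
        false :: ps[ps.length - (k + 1)] := by
      unfold guard
      rw [hl, if_pos hi, List.getD_eq_getElem _ _ hi]
    have hc : clip t (guard ps bs c D ((ps.map O).take (ps.length - (k + 1)))) =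
        false :: ps[ps.length - (k + 1)] := by
      unfold clip
      rw [hg, if_neg]
      have := hps _ (List.getElem_mem hi)
      rw [List.length_cons]
      omega
    have e : k + 1 + n = (k + n) + 1 := by ring
    rw [e, evr_succ, hc, List.head?_cons, if_pos rfl, List.tail_cons, ← ih (by omega)]
    congr 1
    have e2 : ps.length - k = ps.length - (k + 1) + 1 := by omega
    rw [e2, List.take_succ_eq_append_getElem (by rw [List.length_map]; exact hi)]
    simp

theorem guard_post {ps : List (List Bool)} {bs c : List Bool} {D : List Bool → List Bool}
    {O : Oracle} {t : ℕ} {pre : List Bool} (hpre : pre.length = ps.length) (h : pre = bs) :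
    ∀ (n : ℕ) (a : List Bool),
    evr (guard ps bs c D) O t n (pre ++ a) = evr D O t n a := by
  have hg : ∀ a, guard ps bs c D (pre ++ a) = D a := by
    intro a
    unfold guard
    have h1 : ¬ (pre ++ a).length < ps.length := by rw [List.length_append]; omega
    rw [if_neg h1, ← hpre, List.take_left, List.drop_left, if_pos h]
  intro n
  induction n with
  | zero => intro a; rfl
  | succ n ih =>
    intro a
    rw [evr_succ, evr_succ, hg, List.append_assoc, ih]

/-- the guarded algorithm -/
theorem evr_guard {ps : List (List Bool)} {bs c : List Bool} {D : List Bool → List Bool}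
    {O : Oracle} {t : ℕ} (hps : ∀ q ∈ ps, q.length ≤ t) (hc : c.length ≤ t + 1)
    (hc' : c.head? ≠ some false) (n : ℕ) :
    evr (guard ps bs c D) O t (ps.length + (n + 1)) [] =
      if ps.map O = bs then evr D O t (n + 1) [] else c := by
  have h1 := guard_pre (bs := bs) (c := c) (D := D) (O := O) hps (n + 1) ps.length le_rfl
  rw [Nat.sub_self, List.take_zero] at h1
  rw [h1]
  by_cases h : ps.map O = bs
  · rw [if_pos h]
    have h2 := guard_post (c := c) (D := D) (O := O) (t := t) (pre := ps.map O) (ps := ps)
      (by simp) h (n + 1) []
    rwa [List.append_nil] at h2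
  · rw [if_neg h, evr_succ]
    have hg : guard ps bs c D (ps.map O) = c := by
      unfold guard
      rw [if_neg (by simp), List.take_of_length_le (by simp), if_neg h]
    have hcl : clip t c = c := by
      unfold clip
      rw [if_neg (by omega)]
    rw [hg, hcl, if_neg hc']

/-- the actions of the algorithm on the input `y`, until it should have stopped -/
noncomputable def act (M : Alg) (y a : List Bool) : List Bool :=
  if a.length < M.p.eval y.length then nrm (M.D (pairBits y a)) else []

theorem run_sound (M : Alg) (O : Oracle) (y : List Bool) (t : ℕ) : ∀ (n m : ℕ) (a v : List Bool),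
    a.length + m = M.p.eval y.length → evr (act M y) O t n a = true :: v →
      M.run O y m a = some v := by
  intro n
  induction n with
  | zero => intro m a v _ h; simp [evr] at h
  | succ n ih =>
    intro m a v hm h1
    rw [evr] at h1
    split_ifs at h1 with h3
    cases m with
    | zero =>
      have e : act M y a = [] := by unfold act; rw [if_neg (by omega)]
      rw [e] at h1
      simp at h1
    | succ m =>
      have e : act M y a = nrm (M.D (pairBits y a)) := by unfold act; rw [if_pos (by omega)]
      rw [e] at h1
      rw [Alg.run]
      rcases hD : M.D (pairBits y a) with _ | ⟨b, q⟩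
      · rw [hD] at h1
        simp only [nrm, if_true, List.cons.injEq, true_and] at h1
        simp only [← h1]
      · rw [hD] at h1
        simp only [nrm, List.cons_ne_nil, if_false] at h1
        cases b with
        | true =>
          simp only [List.cons.injEq, true_and] at h1
          simp only [← h1]
        | false =>
          exact ih m _ v (by rw [List.length_append, List.length_singleton]; omega) h1

theorem evr_sound {M : Alg} {O : Oracle} {y : List Bool} {t n : ℕ} {v : List Bool}
    (h : evr (act M y) O t n [] = true :: v) : M.out O y = some v :=
  run_sound M O y t n _ [] v (by simp) h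

theorem run_complete (M : Alg) (O : Oracle) (y : List Bool) (t : ℕ) : ∀ (m n : ℕ) (a z : List Bool),
    a.length + m = M.p.eval y.length →
    m ≤ n → (∀ a' : List Bool, a'.length ≤ a.length + m → (M.D (pairBits y a')).length ≤ t) →
    M.run O y m a = some z → evr (act M y) O t n a = true :: z := by
  intro m
  induction m with
  | zero => intro n a z _ _ _ h; simp [Alg.run] at h
  | succ m ih =>
    intro n a z hm hn ht h
    obtain ⟨n, rfl⟩ : ∃ n', n = n' + 1 := ⟨n - 1, by omega⟩
    have hl := ht a (by omega)
    have e : act M y a = nrm (M.D (pairBits y a)) := by unfold act; rw [if_pos (by omega)]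
    rw [Alg.run] at h
    rw [evr, e]
    rcases hD : M.D (pairBits y a) with _ | ⟨b, q⟩
    · rw [hD] at h
      simp only [Option.some.injEq] at h
      subst h
      simp [nrm]
    · rw [hD] at hl
      have e2 : nrm (b :: q) = b :: q := by simp [nrm]
      rw [e2, if_neg (by omega)]
      rw [hD] at h
      cases b with
      | true =>
        simp only [Option.some.injEq] at h
        simp only [h]
      | false =>
        refine ih n _ z (by rw [List.length_append, List.length_singleton]; omega) (by omega)
          (fun a' ha' => ht a' ?_) h
        rw [List.length_append, List.length_singleton] at ha'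
        omega

/-- The algorithm with large bounds. -/
theorem exists_time (M : Alg) : ∃ T : Polynomial ℕ, ∀ (O : Oracle) (y z : List Bool) (t n : ℕ),
    T.eval y.length ≤ t → T.eval y.length ≤ n → M.out O y = some z →
      evr (act M y) O t n [] = true :: z := by
  obtain ⟨b, hb⟩ := M.next_length
  refine ⟨b + M.p, fun O y z t n ht hn h => ?_⟩
  rw [Polynomial.eval_add] at ht hn
  refine run_complete M O y t (M.p.eval y.length) n [] z (by simp) (by omega)
    (fun a' ha' => ?_) h
  rw [List.length_nil, zero_add] at ha'
  exact (hb y a' ha').trans (by omega)

/-- the descriptions of the algorithms -/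
abbrev Idx : Type := List (List Bool) × List Bool × List Bool × Alg

theorem exists_dec : ∃ d : List Bool → Idx, Function.Surjective d := by
  have h1 := CC.poly_countable
  have h2 : Countable Alg := Alg.countable
  have : Nonempty Idx := ⟨([], [], [], ⟨fun _ => [], CC.const_polyTime [], 0⟩)⟩
  obtain ⟨f, hf⟩ := exists_surjective_nat Idx
  refine ⟨fun h => f h.length, fun i => ?_⟩
  obtain ⟨n, hn⟩ := hf i
  exact ⟨List.replicate n true, by simpa using hn⟩

/-- the algorithm with a given description -/
noncomputable def dec (h : List Bool) : Idx := exists_dec.choose h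

theorem dec_surj : Function.Surjective dec := exists_dec.choose_spec

/-- the actions of the algorithm with the description `h` -/
noncomputable def Dh (h y a : List Bool) : List Bool :=
  guard (dec h).1 (dec h).2.1 (dec h).2.2.1 (act (dec h).2.2.2 y) a

/-- bounded evaluation of the algorithm with the description `h` -/
noncomputable def ev (h y : List Bool) (t : ℕ) (O : Oracle) : List Bool :=
  evr (Dh h y) O t (t + 1) []

/-- There is a description of the guarded algorithm. -/
theorem exists_desc (ps : List (List Bool)) (bs c : List Bool) (hc : c.head? ≠ some false)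
    (M : Alg) : ∃ (h : List Bool) (κ : ℕ), ∀ (t : ℕ), κ ≤ t → ∀ (y : List Bool) (O : Oracle),
      ev h y t O = if ps.map O = bs then evr (act M y) O t (t + 1 - ps.length) [] else c := by
  obtain ⟨h, hh⟩ := dec_surj (ps, bs, c, M)
  refine ⟨h, ps.length + (ps.map List.length).sum + c.length, fun t ht y O => ?_⟩
  unfold ev Dh
  rw [hh]
  have h1 : ∀ q ∈ ps, q.length ≤ t := by
    intro q hq
    have := List.single_le_sum (l := ps.map List.length) (fun _ _ => Nat.zero_le _) q.length
      (List.mem_map.2 ⟨q, hq, rfl⟩)
    omega
  have h2 := evr_guard (bs := bs) (c := c) (D := act M y) (O := O) h1 (by omega) hc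
    (t - ps.length)
  have e : ps.length + (t - ps.length + 1) = t + 1 := by omega
  have e2 : t - ps.length + 1 = t + 1 - ps.length := by omega
  rw [e, e2] at h2
  exact h2

end Pool.Agent.W2helper58.GU
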