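import Pool.Agent.H620R2.Gauge.C
import Pool.Agent.H620R2.GaugeR.Seq
import Pool.Agent.H591R3.PHG.Sig
import Pool.Agent.H591R3.PHG.LangSig
import Pool.Agent.TH678.GC.Final

/-!
# A guide for generic oracles: definitions and statements of the pieces
-/

set_option autoImplicit false

namespace Pool.Agent.W2helper58.GU

open Pool.Agent.NPC Pool.Agent.H620R2.Gauge Pool.Agent.H591R3.PHG Pool.Agent.TH678.GC

/-- `NP` relative to `A`: short witnesses which are checked in polynomial time relative to `A` -/
def IsNP (A : Oracle) (L : Set (List Bool)) : Prop :=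
  ∃ (V : List Bool → List Bool) (p : Polynomial ℕ), IsFP A V ∧
    ∀ x, x ∈ L ↔ ∃ w : List Bool, w.length ≤ p.eval x.length ∧ V (pairBits w x) = [true]

/-- `coNP` relative to `A` -/
def IsCoNP (A : Oracle) (L : Set (List Bool)) : Prop := IsNP A Lᶜ

/-- `UP` relative to `A`: as `NP`, but no string has two different witnesses -/
def IsUP (A : Oracle) (L : Set (List Bool)) : Prop :=
  ∃ (V : List Bool → List Bool) (p : Polynomial ℕ), IsFP A V ∧
    (∀ x w w' : List Bool, w.length ≤ p.eval x.length → w'.length ≤ p.eval x.length →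
      V (pairBits w x) = [true] → V (pairBits w' x) = [true] → w = w') ∧
    ∀ x, x ∈ L ↔ ∃ w : List Bool, w.length ≤ p.eval x.length ∧ V (pairBits w x) = [true]

/-- at most one string of each length -/
def Uniq (B : Oracle) : Prop :=
  ∀ w w' : List Bool, w.length = w'.length → B w = true → B w' = true → w = w'

/-- `V` accepts, as a function of the oracle: `M` is the algorithm -/
def acc (M : Alg) (A : Oracle) (y : List Bool) : List Bool := (M.out A y).getD []

/-! ### Pieces -/

/-- Piece PH: for every `E` the language `lang k A` differs from every language in `Σ_k` relative to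
`join A E`, for some `A` close to a given `B₀`. -/
def S_PH : Prop := ∀ (E : Oracle) (k : ℕ) (M : Alg) (p : Polynomial ℕ) (B₀ : Oracle) (ℓ : ℕ),
  ∃ A : Oracle, (∀ u : List Bool, u.length ≤ ℓ → A u = B₀ u) ∧
    ∃ x : List Bool, ¬ (x ∈ lang k A ↔ Quant (p.eval x.length) (acc M (join A E)) k true x)

/-- Piece SIG: relativized inclusion. -/
def S_SIG : Prop := ∀ (A E : Oracle) (k : ℕ), IsSig (join A E) (k + 1) (lang k A)

/-- the tally language of the column `B` -/
def tally (B : Oracle) : Set (List Bool) :=
  {x | x = List.replicate x.length true ∧ ∃ w : List Bool, w.length = x.length ∧ B w = true}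

/-- Piece PUP: the tally language of the column `B` is not in `P` for some `B` (with at most one
string of each length) close to `B₀`. -/
def S_PUP : Prop := ∀ (A E : Oracle) (M : Alg) (B₀ : Oracle) (ℓ : ℕ), Uniq B₀ →
  ∃ B : Oracle, Uniq B ∧ (∀ u : List Bool, u.length ≤ ℓ → B u = B₀ u) ∧
    ∃ x : List Bool, ¬ (x ∈ tally B ↔ acc M (join A (join B E)) x = [true])

/-- Piece UPNP: no machine for `UP` accepts the tally language of the column `A`: for some `A`
close to `A₀` either it has two witnesses for some input or it accepts another language. -/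
def S_UPNP : Prop := ∀ (E : Oracle) (M : Alg) (p : Polynomial ℕ) (A₀ : Oracle) (ℓ : ℕ),
  ∃ A : Oracle, (∀ u : List Bool, u.length ≤ ℓ → A u = A₀ u) ∧
    ((∃ x w w' : List Bool, w.length ≤ p.eval x.length ∧ w'.length ≤ p.eval x.length ∧ w ≠ w' ∧
      acc M (join A E) (pairBits w x) = [true] ∧ acc M (join A E) (pairBits w' x) = [true]) ∨
    ∃ x : List Bool, ¬ (x ∈ tally A ↔
      ∃ w : List Bool, w.length ≤ p.eval x.length ∧ acc M (join A E) (pairBits w x) = [true]))

end Pool.Agent.W2helper58.GU
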